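import Pool.Agent.Helper3.AC.Defs
import Pool.Agent.Helper77.QL.L5b

/-!
# Project AC, block V: the slices depend smoothly on the direction, measurability of the moment
-/

open MeasureTheory Real Set Filter Topology

set_option autoImplicit false

namespace Pool.Agent.Helper60.AC

open Pool.Agent.Helper22.AE
open Pool.Agent.Helper92.GC (dt tp Tq uu tt arc dd)
open Pool.Agent.Helper75.TW (m20)
open Pool.Agent.Helper60.LT (Fr Tf xf yf df vf fr sl Cv Hom)
open Pool.Agent.Helper60.QL (R3)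
open Pool.Agent.Helper3.AC

/-- the slices through the restriction to the circle -/
theorem sl_circ {c₁ B : ℝ} {h : ℝ × ℝ → ℝ} (hh : Hom c₁ B h) (θ τ : ℝ) : sl h θ τ = √(1 + τ ^ 2) * sl h (θ + arctan τ) 0 := by
  have h0 : 0 < √(1 + τ ^ 2) := Real.sqrt_pos.2 (by positivity)
  unfold sl
  rw [← hh.hom _ _ h0]
  congr 1
  simp only [cos_add, sin_add, Real.cos_arctan, Real.sin_arctan]
  refine Prod.ext ?_ ?_
  · dsimp only
    field_simp
    ring
  · dsimp only
    field_simp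
    ring

/-- the restriction to the circle is five times differentiable -/
theorem circ_cd {c₁ B : ℝ} {h : ℝ × ℝ → ℝ} (hh : HA c₁ B h) : ContDiff ℝ 5 (fun φ => sl h φ 0) := by
  rw [contDiff_iff_contDiffAt]
  intro θ
  have h1 : ContDiffAt ℝ 5 (fun φ => cos (φ - θ) * sl h θ (tan (φ - θ))) θ := by
    have h2 : ContDiffAt ℝ 5 (fun φ => tan (φ - θ)) θ := by
      have h3 : ContDiffAt ℝ 5 tan (θ - θ) := Real.contDiffAt_tan.2 (by
        rw [sub_self, cos_zero]
        exact one_ne_zero)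
      exact ContDiffAt.comp (g := tan) (f := fun φ : ℝ => φ - θ) θ h3 (contDiffAt_id.sub contDiffAt_const)
    refine ContDiffAt.mul ?_ ?_
    · exact Real.contDiff_cos.contDiffAt.comp θ (contDiffAt_id.sub contDiffAt_const)
    · exact (hh.sm θ).contDiffAt.comp θ h2
  refine h1.congr_of_eventuallyEq ?_
  have h4 : ∀ᶠ φ in 𝓝 θ, |φ - θ| < π / 2 := by
    have : Ioo (θ - π / 2) (θ + π / 2) ∈ 𝓝 θ := Ioo_mem_nhds (by linarith [pi_pos]) (by linarith [pi_pos])
    filter_upwards [this] with φ hφ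
    rw [abs_lt]
    constructor <;> linarith [hφ.1, hφ.2]
  filter_upwards [h4] with φ hφ
  rw [abs_lt] at hφ
  have hc : 0 < cos (φ - θ) := cos_pos_of_mem_Ioo ⟨hφ.1, hφ.2⟩
  rw [sl_circ hh.hom θ (tan (φ - θ)), Real.arctan_tan hφ.1 hφ.2]
  have e1 : θ + (φ - θ) = φ := by ring
  have e2 : √(1 + tan (φ - θ) ^ 2) = (cos (φ - θ))⁻¹ := by
    rw [show 1 + tan (φ - θ) ^ 2 = ((cos (φ - θ))⁻¹) ^ 2 by
      rw [tan_eq_sin_div_cos]
      field_simp
      linarith [sin_sq_add_cos_sq (φ - θ)], Real.sqrt_sq (inv_nonneg.2 hc.le)]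
  rw [e1, e2, ← mul_assoc, mul_inv_cancel₀ hc.ne', one_mul]

/-- the slices are jointly five times differentiable -/
theorem sl_cd {c₁ B : ℝ} {h : ℝ × ℝ → ℝ} (hh : HA c₁ B h) : ContDiff ℝ 5 (fun q : ℝ × ℝ => sl h q.1 q.2) := by
  have h1 : (fun q : ℝ × ℝ => sl h q.1 q.2) = fun q : ℝ × ℝ => √(1 + q.2 ^ 2) * (fun φ => sl h φ 0) (q.1 + arctan q.2) := by
    funext q
    exact sl_circ hh.hom q.1 q.2
  rw [h1]
  refine ContDiff.mul ?_ ?_
  · exact (contDiff_const.add (contDiff_snd.pow 2)).sqrt fun q => by positivity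
  · exact (circ_cd hh).comp (contDiff_fst.add (Real.contDiff_arctan.comp contDiff_snd))

/-- the derivative in the second variable -/
theorem der_cd {n : ℕ} {f : ℝ → ℝ → ℝ} (hf : ContDiff ℝ (n + 1 : ℕ) (fun q : ℝ × ℝ => f q.1 q.2)) :
    ContDiff ℝ (n : ℕ) (fun q : ℝ × ℝ => deriv (f q.1) q.2) := by
  have h2 : ContDiff ℝ (n + 1 : ℕ) (fun q : (ℝ × ℝ) × ℝ => f q.1.1 q.2) :=
    ContDiff.comp (g := fun q : ℝ × ℝ => f q.1 q.2) (f := fun q : (ℝ × ℝ) × ℝ => (q.1.1, q.2)) hf (contDiff_fst.fst.prodMk contDiff_snd)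
  have h1 : ContDiff ℝ (n : ℕ) (fun q : ℝ × ℝ => fderiv ℝ (f q.1) q.2) :=
    ContDiff.fderiv (f := fun (q : ℝ × ℝ) (τ : ℝ) => f q.1 τ) (g := fun q : ℝ × ℝ => q.2) (m := ((n + 1 : ℕ) : WithTop ℕ∞)) h2 contDiff_snd (by norm_cast)
  have h3 : ContDiff ℝ (n : ℕ) (fun q : ℝ × ℝ => (fderiv ℝ (f q.1) q.2) (1 : ℝ)) := ContDiff.clm_apply h1 contDiff_const
  have e : (fun q : ℝ × ℝ => deriv (f q.1) q.2) = fun q : ℝ × ℝ => (fderiv ℝ (f q.1) q.2) (1 : ℝ) := by
    funext q
    exact (fderiv_apply_one_eq_deriv).symm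
  rw [e]
  exact h3

theorem der4 {n : ℕ} {f : ℝ → ℝ → ℝ} (hf : ContDiff ℝ (n + 1 + 1 + 1 + 1 : ℕ) (fun q : ℝ × ℝ => f q.1 q.2)) :
    Continuous (fun θ => deriv (deriv (f θ)) 0) ∧ Continuous (fun θ => deriv (deriv (deriv (f θ))) 0) ∧
      Continuous (fun θ => deriv (deriv (deriv (deriv (f θ)))) 0) := by
  have h1 := der_cd (f := f) hf
  have h2 := der_cd (f := fun θ => deriv (f θ)) h1
  have h3 := der_cd (f := fun θ => deriv (deriv (f θ))) h2
  have h4 := der_cd (f := fun θ => deriv (deriv (deriv (f θ)))) h3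
  have hc : Continuous fun θ : ℝ => (θ, (0 : ℝ)) := by fun_prop
  exact ⟨h2.continuous.comp hc, h3.continuous.comp hc, h4.continuous.comp hc⟩

/-- the derivatives of the slices at `0` are continuous in the direction -/
theorem p_cont {c₁ B : ℝ} {h : ℝ × ℝ → ℝ} (hh : HA c₁ B h) : Continuous (p2 h) ∧ Continuous (p3 h) ∧ Continuous (p4 h) :=
  der4 (n := 0) (f := sl h) ((sl_cd hh).of_le (by norm_num))

theorem ka_meas {c₁ B : ℝ} {h : ℝ × ℝ → ℝ} (hh : HA c₁ B h) : Measurable (be h) ∧ Measurable (ka h) := by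
  obtain ⟨h2, h3, h4⟩ := p_cont hh
  have h2 := h2.measurable
  have h3 := h3.measurable
  have h4 := h4.measurable
  have hb : Measurable (be h) := by
    unfold be
    fun_prop
  refine ⟨hb, ?_⟩
  unfold ka
  fun_prop

/-- the frames depend measurably on the coordinates -/
theorem fA_meas {c₁ B : ℝ} {h : ℝ × ℝ → ℝ} (hh : HA c₁ B h) : Measurable (fun q : ℝ × R3 => fA h q.1 q.2) := by
  obtain ⟨h2, -, -⟩ := p_cont hh
  have h2 := h2.measurable
  obtain ⟨hb, hk⟩ := ka_meas hh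
  have hA1 : Measurable fun q : ℝ × R3 => q.2.1 := by fun_prop
  have hA2 : Measurable fun q : ℝ × R3 => q.2.2.1 := by fun_prop
  have hA3 : Measurable fun q : ℝ × R3 => q.2.2.2 := by fun_prop
  have hk' : Measurable fun q : ℝ × R3 => ka h q.1 := hk.comp measurable_fst
  have hb' : Measurable fun q : ℝ × R3 => be h q.1 := hb.comp measurable_fst
  have h2' : Measurable fun q : ℝ × R3 => p2 h q.1 := h2.comp measurable_fst
  have hy : Measurable fun q : ℝ × R3 => yA (ka h q.1) q.2 := by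
    unfold yA
    exact (((hA2.pow_const 2).sub (hA3.mul hA1)).div (hk'.mul (hA1.pow_const 2))).sqrt
  have hT : Measurable fun q : ℝ × R3 => TA (p2 h q.1) (ka h q.1) q.2 := by
    unfold TA
    exact (measurable_const.mul hA1).div (h2'.mul (hy.pow_const 2))
  have hx : Measurable fun q : ℝ × R3 => xA (be h q.1) (ka h q.1) q.2 := by
    unfold xA
    exact (hA2.div hA1).neg.add (hb'.mul hy)
  have hc : Measurable fun q : ℝ × R3 => cos q.1 := Real.measurable_cos.comp measurable_fst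
  have hs : Measurable fun q : ℝ × R3 => sin q.1 := Real.measurable_sin.comp measurable_fst
  unfold fA Pool.Agent.Helper60.LT.fr
  exact ((hT.mul hc).prodMk (hT.mul hs)).prodMk ((hT.mul ((hx.mul hc).sub (hy.mul hs))).prodMk (hT.mul ((hx.mul hs).add (hy.mul hc))))

end Pool.Agent.Helper60.AC

namespace Pool.Agent.Helper3.AC

open Pool.Agent.Helper22.AE
open Pool.Agent.Helper92.GC (dt tp Tq uu tt arc dd)
open Pool.Agent.Helper75.TW (m20)
open Pool.Agent.Helper60.LT (Fr Tf xf yf df vf fr sl Cv Hom)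
open Pool.Agent.Helper60.QL (R3)

theorem mf_meas {c₁ B₀ : ℝ} {h : ℝ × ℝ → ℝ} (hh : Hom c₁ B₀ h) (t₀ : ℝ) (S : Finset (ℤ × ℤ)) : Measurable (fun f : Fr => mf h t₀ S f) := by
  unfold mf
  refine Pool.Agent.Helper60.QL.m20_meas77 S (fun (f : Fr) k => ee (uu 0 k * hf h f (tt 0 k - t₀))) fun k => ?_
  have h1 : Continuous fun f : Fr => hf h f (tt 0 k - t₀) := by
    unfold hf
    exact hh.cont.comp (by fun_prop)
  have h2 : Continuous ee := by
    unfold ee
    fun_prop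
  exact (h2.comp (continuous_const.mul h1)).measurable

theorem qf_meas {c₁ B₀ : ℝ} {h : ℝ × ℝ → ℝ} (hh : HA c₁ B₀ h) (t₀ : ℝ) (S : Finset (ℤ × ℤ)) :
    Measurable (fun q : ℝ × R3 => qf h q.1 t₀ S q.2) :=
  (mf_meas hh.hom t₀ S).comp (Pool.Agent.Helper60.AC.fA_meas hh)

end Pool.Agent.Helper3.AC
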