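import Pool.Agent.Helper60.AC.T2

/-!
# Project AC, block T: the twentieth moment for compact sets of frames from the iteration
-/

open MeasureTheory Real Set Filter Topology

set_option autoImplicit false

namespace Pool.Agent.Helper3.AC

open Pool.Agent.Helper22.AE
open Pool.Agent.Helper92.GC (dt tp Tq uu tt arc dd m6)
open Pool.Agent.Helper75.TW (m20 J20 MomF)
open Pool.Agent.Helper60.LT (Fr Tf xf yf df vf fr sl Cv Hom)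
open Pool.Agent.Helper60.QL (Cone)

/-- the conclusion of the iteration for `lam = 2` -/
def Iter2 (c₁ B₀ : ℝ) : Prop := ∀ η B : ℝ, 0 < η → 1 ≤ B →
    ∃ (M : ℕ) (C B' : ℝ), 2 ≤ M ∧ 1 ≤ C ∧ B ≤ B' ∧ ∀ h : ℝ × ℝ → ℝ, HA c₁ B₀ h → ∀ (X H : ℝ) (S : Finset (ℤ × ℤ)), 1 ≤ X → 1 ≤ H → H ≤ X → Cone H 2 S →
      ∃ m : ℕ, X * H ≤ C * X ^ η * (M : ℝ) ^ (4 * m) ∧ (M : ℝ) ^ (4 * m) ≤ X * H ∧
        IH h B X S ^ (1 / 10 : ℝ) ≤ ENNReal.ofReal (C * X ^ η) * ∑ r ∈ Finset.range (M ^ m), (IH h B' X (arc 0 S (M ^ m) r) + 1) ^ (1 / 10 : ℝ)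

theorem mom_cone_iter {ε c₁ B₀ B : ℝ} (hε : 0 < ε) (hc : 0 < c₁) (hB₀ : 1 ≤ B₀) (hB : 1 ≤ B) (hit : Iter2 c₁ B₀) : ∃ C : ℝ, 1 ≤ C ∧
    ∀ h : ℝ × ℝ → ℝ, HA c₁ B₀ h → ∀ (X H : ℝ) (S : Finset (ℤ × ℤ)), 1 ≤ X → 1 ≤ H → H ^ 3 ≤ X → Cone H 2 S →
      IH h B X S ≤ ENNReal.ofReal (C * X ^ (4 + ε) * (H ^ 20 + H ^ 34 * (X * H) ^ (-(7 / 4) : ℝ))) := by
  refine mom_cone_of (P₀ := HA c₁ B₀) hε hB (fun η hη => hit η B hη hB) ?_ Pool.Agent.Helper60.QL.m20_m6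
  intro ε' B' hε' hB'
  obtain ⟨C, hC, h6⟩ := Pool.Agent.Helper60.AC.m6_frames (ε := ε') (lam := 2) hε' (by norm_num) hc hB₀ hB'
  exact ⟨C, hC, fun h hh => h6 h hh.hom⟩

theorem mom_cpt20_iter {c₁ B₀ : ℝ} (hc : 0 < c₁) (hB₀ : 1 ≤ B₀) (hit : Iter2 c₁ B₀) : MomF J20 Pool.Agent.Helper60.QL.F20q (HA c₁ B₀) 0 (1 / 3) :=
  cpt_of_cone (P₀ := HA c₁ B₀) (fun _ hh => hh.hom) fun _ _ hε hB => mom_cone_iter hε hc hB₀ hB hit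

end Pool.Agent.Helper3.AC
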