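import Pool.Agent.Helper60.QL.Defs
import Pool.Agent.Helper92.GC.T1
import Pool.Agent.Helper92.GC.Q2
import Pool.Agent.Helper78.CG.Main

/-!
# AC-M6 (helper60, after helper79's QL-M6): the sixth moment of a sector for a phase `h` of the class `Hom c₁ b`

As QL/M6 (helper79) with `h (vf f k)` instead of the euclidean norm. For fixed `θ, x, y` the phase is `T u q(t)`, `q(t) = h (e₁ + t e₂)` for the frame of length one; near `t₁` put `e₁ + t₁ e₂ = r (cos θ₁, sin θ₁)`, `e₂ = α (cos θ₁, sin θ₁) + β (-sin θ₁, cos θ₁)`, `r β = y`: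
`q(t₁ + s) = (r + α s) p(β s/(r + α s))`, `p = sl h θ₁`, so `q''(t₁) = β² p''(0)/r = y² p''(0)/r³`.
-/

open MeasureTheory Real Set Filter Topology

set_option autoImplicit false

namespace Pool.Agent.Helper60.AC

open Pool.Agent.Helper60.QL (UB Cone)

open Pool.Agent.Helper22.AE
open Pool.Agent.Helper92.GC (dt tp Tq uu tt arc gs dd m6)
open Pool.Agent.Helper22.AC (n6 IsWt mu)
open Pool.Agent.Helper60.LT (Fr Tf xf yf df vf fr Hom Cv sl)
open Pool.Agent.Helper78.CG (Crv6)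

open Classical in
/-- pairs with small determinant -/
private noncomputable def q6P (S : Finset (ℤ × ℤ)) (D : ℝ) : Finset ((ℤ × ℤ) × (ℤ × ℤ)) :=
  (S ×ˢ S).filter (fun z => |((dd z.1 z.2 : ℤ) : ℝ)| ≤ D)

private theorem q6_cub {ι : Type} (s : Finset ι) (f g : ι → ℝ) (hf : ∀ i ∈ s, 0 ≤ f i) (hg : ∀ i ∈ s, 0 ≤ g i) :
    (∑ i ∈ s, f i ^ 2 * g i) ^ 3 ≤ (∑ i ∈ s, f i ^ 3) ^ 2 * ∑ i ∈ s, g i ^ 3 := by
  have hpq : (3 / 2 : ℝ).HolderConjugate 3 := by
    rw [Real.holderConjugate_iff]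
    norm_num
  have h1 := Real.inner_le_Lp_mul_Lq_of_nonneg s hpq (f := fun i => f i ^ 2) (g := g) (fun i hi => by positivity) hg
  have e1 : ∑ i ∈ s, (f i ^ 2) ^ (3 / 2 : ℝ) = ∑ i ∈ s, f i ^ 3 := by
    refine Finset.sum_congr rfl fun i hi => ?_
    rw [← rpow_natCast, ← rpow_mul (hf i hi), ← rpow_natCast]
    norm_num
  have e2 : ∑ i ∈ s, g i ^ (3 : ℝ) = ∑ i ∈ s, g i ^ 3 := by
    refine Finset.sum_congr rfl fun i _ => ?_
    rw [← rpow_natCast]
    norm_num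
  rw [e1, e2] at h1
  have hF : 0 ≤ ∑ i ∈ s, f i ^ 3 := Finset.sum_nonneg fun i hi => pow_nonneg (hf i hi) 3
  have hG : 0 ≤ ∑ i ∈ s, g i ^ 3 := Finset.sum_nonneg fun i hi => pow_nonneg (hg i hi) 3
  have h0 : 0 ≤ ∑ i ∈ s, f i ^ 2 * g i := Finset.sum_nonneg fun i hi => mul_nonneg (by positivity) (hg i hi)
  refine (pow_le_pow_left₀ h0 h1 3).trans (le_of_eq ?_)
  rw [mul_pow, ← rpow_natCast, ← rpow_mul hF, ← rpow_natCast, ← rpow_mul hG]
  norm_num

private theorem q6_hold1 (N : ℕ) (x : ℕ → ℝ) (hx : ∀ i, 0 ≤ x i) :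
    (∑ i ∈ Finset.range N, x i ^ (5 / 3 : ℝ)) ^ 3 ≤ (∑ i ∈ Finset.range N, x i ^ 2) ^ 2 * ∑ i ∈ Finset.range N, x i := by
  have h := q6_cub (Finset.range N) (fun i => x i ^ (2 / 3 : ℝ)) (fun i => x i ^ (1 / 3 : ℝ))
    (fun i _ => rpow_nonneg (hx i) _) (fun i _ => rpow_nonneg (hx i) _)
  have e1 : ∀ i ∈ Finset.range N, (x i ^ (2 / 3 : ℝ)) ^ 2 * x i ^ (1 / 3 : ℝ) = x i ^ (5 / 3 : ℝ) := by
    intro i _
    rw [← rpow_natCast, ← rpow_mul (hx i), ← rpow_add_of_nonneg (hx i) (by norm_num) (by norm_num)]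
    norm_num
  have e2 : ∀ i ∈ Finset.range N, (x i ^ (2 / 3 : ℝ)) ^ 3 = x i ^ 2 := by
    intro i _
    rw [← rpow_natCast, ← rpow_mul (hx i), ← rpow_natCast]
    norm_num
  have e3 : ∀ i ∈ Finset.range N, (x i ^ (1 / 3 : ℝ)) ^ 3 = x i := by
    intro i _
    rw [← rpow_natCast, ← rpow_mul (hx i)]
    norm_num
  rw [Finset.sum_congr rfl e1, Finset.sum_congr rfl e2, Finset.sum_congr rfl e3] at h
  exact h

private theorem q6_arc_sub {β : ℝ} {S : Finset (ℤ × ℤ)} {N j : ℕ} : arc β S N j ⊆ S := by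
  classical
  unfold arc
  exact Finset.filter_subset _ _

private theorem q6_dd {β U δ : ℝ} {k k' : ℤ × ℤ} (hk : 0 < uu β k) (hk' : 0 < uu β k') (hU : uu β k ≤ U) (hU' : uu β k' ≤ U)
    (ht : |tt β k' - tt β k| ≤ δ) : |((dd k k' : ℤ) : ℝ)| ≤ U ^ 2 * δ := by
  have e1 : (k.2 : ℝ) = tt β k * uu β k := by
    unfold tt
    rw [div_mul_cancel₀ _ hk.ne']
  have e1' : (k'.2 : ℝ) = tt β k' * uu β k' := by
    unfold tt
    rw [div_mul_cancel₀ _ hk'.ne']
  have e2 : (k.1 : ℝ) = uu β k - β * k.2 := by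
    unfold uu
    ring
  have e2' : (k'.1 : ℝ) = uu β k' - β * k'.2 := by
    unfold uu
    ring
  have e : ((dd k k' : ℤ) : ℝ) = uu β k * uu β k' * (tt β k' - tt β k) := by
    unfold dd
    push_cast
    rw [e2, e2']
    have : (uu β k - β * (k.2 : ℝ)) * (k'.2 : ℝ) - (k.2 : ℝ) * (uu β k' - β * (k'.2 : ℝ)) =
      uu β k * (k'.2 : ℝ) - (k.2 : ℝ) * uu β k' := by ring
    rw [this, e1, e1']
    ring
  rw [e, abs_mul, abs_mul, abs_of_pos hk, abs_of_pos hk']
  have hU0 : 0 ≤ U := hk.le.trans hU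
  have h1 : uu β k * uu β k' ≤ U * U := mul_le_mul hU hU' hk'.le hU0
  calc uu β k * uu β k' * |tt β k' - tt β k| ≤ (U * U) * δ := mul_le_mul h1 ht (abs_nonneg _) (by positivity)
    _ = _ := by ring

private theorem q6_arc {β : ℝ} {S : Finset (ℤ × ℤ)} {N j : ℕ} (hN : 1 ≤ N) (hS : ∀ k ∈ S, |tt β k| ≤ 5) {k k' : ℤ × ℤ}
    (hk : k ∈ arc β S N j) (hk' : k' ∈ arc β S N j) : |tt β k' - tt β k| ≤ 12 / N := by
  classical
  unfold arc at hk hk'
  rw [Finset.mem_filter] at hk hk'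
  have hN0 : (0 : ℝ) < N := by exact_mod_cast hN
  have a1 := (abs_le.1 (hS k hk.1)).1
  have a2 := (abs_le.1 (hS k' hk'.1)).1
  have f1 := (Nat.floor_eq_iff (by
    have : 0 ≤ (tt β k + 6) / 12 := by linarith
    positivity)).1 hk.2
  have f2 := (Nat.floor_eq_iff (by
    have : 0 ≤ (tt β k' + 6) / 12 := by linarith
    positivity)).1 hk'.2
  have h7 : |tt β k' - tt β k| * N = |(tt β k' - tt β k) * N| := by rw [abs_mul, abs_of_pos hN0]
  rw [le_div_iff₀ hN0, h7, abs_le]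
  constructor <;> linarith [f1.1, f1.2, f2.1, f2.2]

private theorem q6_disj {β : ℝ} {S : Finset (ℤ × ℤ)} {N : ℕ} (F : ℕ → Finset ((ℤ × ℤ) × (ℤ × ℤ))) {T : ℝ}
    (hF : ∀ j, F j ⊆ arc β S N j ×ˢ arc β S N j) (hT : ∀ j, ∀ q ∈ F j, |((dd q.1 q.2 : ℤ) : ℝ)| ≤ T) :
    ∑ j ∈ Finset.range N, ((F j).card : ℝ) ≤ ((q6P S T).card : ℝ) := by
  classical
  have h4 : ((Finset.range N).biUnion F).card = ∑ j ∈ Finset.range N, (F j).card := by
    refine Finset.card_biUnion fun i _ j _ hij => ?_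
    refine Finset.disjoint_left.2 ?_
    rintro ⟨k, k'⟩ h5 h6
    have h7 := (Finset.mem_product.1 (hF _ h5)).1
    have h8 := (Finset.mem_product.1 (hF _ h6)).1
    unfold arc at h7 h8
    rw [Finset.mem_filter] at h7 h8
    exact hij (h7.2.symm.trans h8.2)
  have h5 : ((Finset.range N).biUnion F) ⊆ q6P S T := by
    intro q hq
    rw [Finset.mem_biUnion] at hq
    obtain ⟨j, -, hj⟩ := hq
    have h7 := (Finset.mem_product.1 (hF _ hj)).1
    have h8 := (Finset.mem_product.1 (hF _ hj)).2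
    unfold q6P
    rw [Finset.mem_filter]
    exact ⟨Finset.mem_product.2 ⟨q6_arc_sub h7, q6_arc_sub h8⟩, hT j q hj⟩
  have h6 := Finset.card_le_card h5
  rw [h4] at h6
  exact_mod_cast h6

private theorem q6_sum {β : ℝ} {S : Finset (ℤ × ℤ)} {N : ℕ} : ∑ j ∈ Finset.range N, ((arc β S N j).card : ℝ) ≤ (S.card : ℝ) := by
  classical
  have h4 : ((Finset.range N).biUnion (fun j => arc β S N j)).card = ∑ j ∈ Finset.range N, (arc β S N j).card := by
    refine Finset.card_biUnion fun i _ j _ hij => ?_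
    refine Finset.disjoint_left.2 ?_
    intro k h5 h6
    unfold arc at h5 h6
    rw [Finset.mem_filter] at h5 h6
    exact hij (h5.2.symm.trans h6.2)
  have h5 : ((Finset.range N).biUnion (fun j => arc β S N j)) ⊆ S := by
    intro q hq
    rw [Finset.mem_biUnion] at hq
    obtain ⟨j, -, hj⟩ := hq
    exact q6_arc_sub hj
  have h6 := Finset.card_le_card h5
  rw [h4] at h6
  exact_mod_cast h6

/-- the squares of the arcs -/
private theorem q6_sq {β U : ℝ} {S : Finset (ℤ × ℤ)} {N : ℕ} (hN : 1 ≤ N) (hS : ∀ k ∈ S, 0 < uu β k ∧ uu β k ≤ U ∧ |tt β k| ≤ 5) :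
    ∑ j ∈ Finset.range N, ((arc β S N j).card : ℝ) ^ 2 ≤ ((q6P S (U ^ 2 * (12 / N))).card : ℝ) := by
  have h7 : ∑ j ∈ Finset.range N, ((arc β S N j).card : ℝ) ^ 2 =
      ∑ j ∈ Finset.range N, ((arc β S N j ×ˢ arc β S N j).card : ℝ) := by
    refine Finset.sum_congr rfl fun j _ => ?_
    rw [Finset.card_product]
    push_cast
    ring
  rw [h7]
  refine q6_disj (fun j => arc β S N j ×ˢ arc β S N j) (fun j => Finset.Subset.refl _) ?_
  intro j q hq
  have h1 := (Finset.mem_product.1 hq).1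
  have h2 := (Finset.mem_product.1 hq).2
  have h3 := hS _ (q6_arc_sub h1)
  have h4 := hS _ (q6_arc_sub h2)
  exact q6_dd h3.1 h4.1 h3.2.1 h4.2.1 (q6_arc hN (fun k hk => (hS k hk).2.2) h1 h2)

private theorem q6P_mono {S : Finset (ℤ × ℤ)} {D D' : ℝ} (h : D ≤ D') : ((q6P S D).card : ℝ) ≤ ((q6P S D').card : ℝ) := by
  classical
  have : q6P S D ⊆ q6P S D' := by
    intro q hq
    unfold q6P at hq ⊢
    rw [Finset.mem_filter] at hq ⊢
    exact ⟨hq.1, hq.2.trans h⟩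
  exact_mod_cast Finset.card_le_card this

open Classical in
private theorem q6_six {ε c₁ C₀ lam : ℝ} (hε : 0 < ε) (hc : 0 < c₁) (hl : 1 ≤ lam) : ∃ C : ℝ, 1 ≤ C ∧
    ∀ (q : ℝ → ℝ) (x₀ ρ H X₁ : ℝ) (v : ℝ → ℝ) (a : ℤ × ℤ → ℂ) (A : Finset (ℤ × ℤ)), Crv6 c₁ C₀ ρ q → (∀ k, ‖a k‖ ≤ 1) → 0 < ρ → ρ ≤ 5 →
      1 ≤ H → 0 < X₁ → IsWt X₁ v → (∀ k ∈ A, H / lam ≤ uu x₀ k ∧ uu x₀ k ≤ lam * H ∧ |tt x₀ k| ≤ ρ) →
      n6 (mu v) (gs A a (Pool.Agent.Helper78.CG.ff x₀ q)) ^ 3 ≤ C * H ^ ε * (A.card : ℝ) *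
        (((A ×ˢ A).filter (fun z => |((dd z.1 z.2 : ℤ) : ℝ)| ≤ C * (1 + H ^ 2 / √(H * X₁)))).card : ℝ) ^ 2 := by
  classical
  obtain ⟨M, hM, C', hC', h6⟩ := Pool.Agent.Helper78.CG.dec6 (ε := ε / 6) (c := c₁) (C₀ := C₀) (lam := lam) (by positivity) hc hl
  have hM0 : (1 : ℝ) < M := by exact_mod_cast (by omega : 1 < M)
  have hC0 : 0 < C' := by linarith
  have hsC : 1 ≤ √C' := by rw [one_le_sqrt]; exact hC'
  obtain ⟨K, hK⟩ : ∃ K : ℝ, K = 12 * M * lam ^ 2 * (1 + √C') := ⟨_, rfl⟩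
  have hl2 : 1 ≤ lam ^ 2 := one_le_pow₀ hl
  have hK0 : 0 < K := by rw [hK]; positivity
  obtain ⟨C, hC⟩ : ∃ C : ℝ, C = C' ^ 3 + K := ⟨_, rfl⟩
  have hC3 : 1 ≤ C' ^ 3 := one_le_pow₀ hC'
  have hC1 : 1 ≤ C := by rw [hC]; linarith
  refine ⟨C, hC1, ?_⟩
  intro q x₀ ρ H X₁ v a A hp ha hρ hρ5 hH hX hv hA
  have hH0 : 0 < H := by linarith
  have hHX : 0 < H * X₁ := by positivity
  have hsH : 0 < √(H * X₁) := sqrt_pos.2 hHX
  have hHe : 1 ≤ H ^ ε := one_le_rpow hH hε.le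
  change _ ≤ C * H ^ ε * (A.card : ℝ) * ((q6P A (C * (1 + H ^ 2 / √(H * X₁)))).card : ℝ) ^ 2
  have hA' : ∀ k ∈ A, 0 < uu x₀ k ∧ uu x₀ k ≤ lam * H ∧ |tt x₀ k| ≤ 5 := fun k hk =>
    ⟨lt_of_lt_of_le (by positivity) (hA k hk).1, (hA k hk).2.1, (hA k hk).2.2.trans hρ5⟩
  rcases le_or_gt 1 (min (H ^ 2) (√(H * X₁ / C'))) with hP | hP
  · obtain ⟨P, hPd⟩ : ∃ P : ℝ, P = min (H ^ 2) (√(H * X₁ / C')) := ⟨_, rfl⟩
    rw [← hPd] at hP
    obtain ⟨m, hm1, hm2⟩ := exists_nat_pow_near hP hM0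
    have hP0 : 0 < P := by linarith
    have hMm : (0 : ℝ) < (M : ℝ) ^ m := by positivity
    have hPH : P ≤ H ^ 2 := by rw [hPd]; exact min_le_left _ _
    have hPX : P ≤ √(H * X₁ / C') := by rw [hPd]; exact min_le_right _ _
    have hcond : C' / X₁ ≤ H * (1 / (M : ℝ) ^ m) ^ 2 := by
      have h1 : ((M : ℝ) ^ m) ^ 2 ≤ H * X₁ / C' := by
        have h2 : (M : ℝ) ^ m ≤ √(H * X₁ / C') := hm1.trans hPX
        have h3 := pow_le_pow_left₀ hMm.le h2 2
        rwa [sq_sqrt (by positivity)] at h3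
      rw [one_div, inv_pow, ← div_eq_mul_inv, div_le_div_iff₀ hX (by positivity)]
      rw [le_div_iff₀ hC0] at h1
      linarith
    have h7 := h6 m x₀ H ρ X₁ q v a A hH0 hX hρ hρ5 hA hp hv hcond
    obtain ⟨x, hx⟩ : ∃ x : ℕ → ℝ, ∀ r, x r = ((arc x₀ A (M ^ m) r).card : ℝ) := ⟨_, fun _ => rfl⟩
    have hx0 : ∀ r, 0 ≤ x r := fun r => by rw [hx]; positivity
    have h8 : ∑ r ∈ Finset.range (M ^ m), n6 (mu v) (gs (arc x₀ A (M ^ m) r) a (Pool.Agent.Helper78.CG.ff x₀ q)) ≤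
        ∑ r ∈ Finset.range (M ^ m), x r ^ (5 / 3 : ℝ) := by
      refine Finset.sum_le_sum fun r _ => ?_
      rw [hx]
      exact Pool.Agent.Helper92.GC.n6_gs_card hv _ ha _
    have hMe : 0 < (M : ℝ) ^ (ε / 6 * (m : ℝ)) := by positivity
    have h9 : n6 (mu v) (gs A a (Pool.Agent.Helper78.CG.ff x₀ q)) ^ 3 ≤
        (C' * (M : ℝ) ^ (ε / 6 * (m : ℝ)) * ∑ r ∈ Finset.range (M ^ m), x r ^ (5 / 3 : ℝ)) ^ 3 := by
      refine pow_le_pow_left₀ (Pool.Agent.Helper22.AC.n6_nonneg _ _) (h7.trans ?_) 3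
      exact mul_le_mul_of_nonneg_left h8 (by positivity)
    have h10 := q6_hold1 (M ^ m) x hx0
    have h11 : ∑ r ∈ Finset.range (M ^ m), x r ≤ (A.card : ℝ) := by
      have := q6_sum (β := x₀) (S := A) (N := M ^ m)
      simpa only [hx] using this
    have hMm1 : 1 ≤ M ^ m := Nat.one_le_pow _ _ (by omega)
    have h12 : ∑ r ∈ Finset.range (M ^ m), x r ^ 2 ≤ ((q6P A (C * (1 + H ^ 2 / √(H * X₁)))).card : ℝ) := by
      have h13 := q6_sq (β := x₀) (S := A) (N := M ^ m) (U := lam * H) hMm1 hA'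
      have h14 : ∑ r ∈ Finset.range (M ^ m), x r ^ 2 = ∑ j ∈ Finset.range (M ^ m), ((arc x₀ A (M ^ m) j).card : ℝ) ^ 2 := by
        simp only [hx]
      rw [h14]
      refine h13.trans (q6P_mono ?_)
      push_cast
      have h15 : P < M * (M : ℝ) ^ m := by rw [pow_succ] at hm2; linarith
      have h16 : 1 / (M : ℝ) ^ m ≤ M / P := by
        rw [div_le_div_iff₀ hMm hP0]
        linarith
      have h17 : 1 / P ≤ 1 / H ^ 2 + √C' / √(H * X₁) := by
        rcases min_choice (H ^ 2) (√(H * X₁ / C')) with h | h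
        · rw [hPd, h]
          have : 0 ≤ √C' / √(H * X₁) := by positivity
          linarith
        · rw [hPd, h, sqrt_div hHX.le, one_div_div]
          have : 0 ≤ 1 / H ^ 2 := by positivity
          linarith
      have h18 : (lam * H) ^ 2 * (12 / (M : ℝ) ^ m) = 12 * lam ^ 2 * H ^ 2 * (1 / (M : ℝ) ^ m) := by ring
      rw [h18]
      have h19 : H ^ 2 * (M / P) ≤ M * (1 + √C' * (H ^ 2 / √(H * X₁))) := by
        have h20 : H ^ 2 * (M / P) = M * (H ^ 2 * (1 / P)) := by ring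
        rw [h20]
        refine mul_le_mul_of_nonneg_left ?_ (by positivity)
        refine (mul_le_mul_of_nonneg_left h17 (by positivity : (0 : ℝ) ≤ H ^ 2)).trans (le_of_eq ?_)
        have : H ^ 2 ≠ 0 := by positivity
        field_simp
      have h21 : 0 ≤ H ^ 2 / √(H * X₁) := by positivity
      calc 12 * lam ^ 2 * H ^ 2 * (1 / (M : ℝ) ^ m) ≤ 12 * lam ^ 2 * H ^ 2 * (M / P) :=
            mul_le_mul_of_nonneg_left h16 (by positivity)
        _ = 12 * lam ^ 2 * (H ^ 2 * (M / P)) := by ring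
        _ ≤ 12 * lam ^ 2 * (M * (1 + √C' * (H ^ 2 / √(H * X₁)))) := mul_le_mul_of_nonneg_left h19 (by positivity)
        _ ≤ 12 * lam ^ 2 * (M * ((1 + √C') * (1 + (H ^ 2 / √(H * X₁))))) := by
            refine mul_le_mul_of_nonneg_left ?_ (by positivity)
            refine mul_le_mul_of_nonneg_left ?_ (by positivity)
            have h22 : (1 + √C') * (1 + H ^ 2 / √(H * X₁)) = 1 + √C' * (H ^ 2 / √(H * X₁)) + (√C' + H ^ 2 / √(H * X₁)) := by ring
            rw [h22]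
            linarith [sqrt_nonneg C']
        _ = K * (1 + H ^ 2 / √(H * X₁)) := by rw [hK]; ring
        _ ≤ C * (1 + H ^ 2 / √(H * X₁)) := by
            refine mul_le_mul_of_nonneg_right ?_ (by positivity)
            rw [hC]
            linarith
    obtain ⟨Q, hQ⟩ : ∃ Q : ℝ, Q = ((q6P A (C * (1 + H ^ 2 / √(H * X₁)))).card : ℝ) := ⟨_, rfl⟩
    rw [← hQ] at h12 ⊢
    have hsx0 : 0 ≤ ∑ r ∈ Finset.range (M ^ m), x r := Finset.sum_nonneg fun r _ => hx0 r
    have hsx2 : 0 ≤ ∑ r ∈ Finset.range (M ^ m), x r ^ 2 := Finset.sum_nonneg fun r _ => by positivity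
    have hMe3 : ((M : ℝ) ^ (ε / 6 * (m : ℝ))) ^ 3 ≤ H ^ ε := by
      have e1 : ((M : ℝ) ^ (ε / 6 * (m : ℝ))) ^ 3 = ((M : ℝ) ^ m) ^ (ε / 2) := by
        rw [← rpow_natCast, ← rpow_mul (by positivity), ← rpow_natCast, ← rpow_mul (by positivity)]
        congr 1
        push_cast
        ring
      rw [e1]
      have e2 : ((M : ℝ) ^ m) ^ (ε / 2) ≤ (H ^ 2) ^ (ε / 2) := rpow_le_rpow hMm.le (hm1.trans hPH) (by positivity)
      refine e2.trans (le_of_eq ?_)
      rw [← rpow_natCast, ← rpow_mul hH0.le]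
      congr 1
      push_cast
      ring
    refine h9.trans ?_
    rw [mul_pow, mul_pow]
    have h22 : (∑ r ∈ Finset.range (M ^ m), x r ^ (5 / 3 : ℝ)) ^ 3 ≤ Q ^ 2 * A.card := by
      refine h10.trans ?_
      exact mul_le_mul (pow_le_pow_left₀ hsx2 h12 2) h11 hsx0 (by positivity)
    calc C' ^ 3 * ((M : ℝ) ^ (ε / 6 * (m : ℝ))) ^ 3 * (∑ r ∈ Finset.range (M ^ m), x r ^ (5 / 3 : ℝ)) ^ 3 ≤
          C' ^ 3 * H ^ ε * (Q ^ 2 * A.card) := by
          refine mul_le_mul (mul_le_mul_of_nonneg_left hMe3 (by positivity)) h22 ?_ (by positivity)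
          exact pow_nonneg (Finset.sum_nonneg fun r _ => rpow_nonneg (hx0 r) _) 3
      _ ≤ C * H ^ ε * (Q ^ 2 * A.card) := by
          refine mul_le_mul_of_nonneg_right ?_ (by positivity)
          refine mul_le_mul_of_nonneg_right ?_ (by positivity)
          rw [hC]
          linarith
      _ = _ := by ring
  · -- all pairs are admissible
    have h1 : √(H * X₁ / C') < 1 := by
      rcases min_lt_iff.1 hP with h | h
      · have : 1 ≤ H ^ 2 := one_le_pow₀ hH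
        linarith
      · exact h
    have h2 : √(H * X₁) ≤ √C' := by
      rw [sqrt_div hHX.le, div_lt_one (by positivity)] at h1
      exact h1.le
    have h3 : q6P A (C * (1 + H ^ 2 / √(H * X₁))) = A ×ˢ A := by
      unfold q6P
      rw [Finset.filter_eq_self]
      intro z hz
      have g1 := hA' _ (Finset.mem_product.1 hz).1
      have g2 := hA' _ (Finset.mem_product.1 hz).2
      have g3 : |tt x₀ z.2 - tt x₀ z.1| ≤ 10 := by
        have := abs_sub (tt x₀ z.2) (tt x₀ z.1)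
        linarith [g1.2.2, g2.2.2]
      refine (q6_dd g1.1 g2.1 g1.2.1 g2.2.1 g3).trans ?_
      have g4 : H ^ 2 ≤ √C' * (H ^ 2 / √(H * X₁)) := by
        rw [← mul_div_assoc, le_div_iff₀ hsH, mul_comm]
        exact mul_le_mul_of_nonneg_right h2 (by positivity)
      have g5 : 0 ≤ H ^ 2 / √(H * X₁) := by positivity
      have g6 : lam ^ 2 * 10 * √C' ≤ C := by
        rw [hC, hK]
        have : lam ^ 2 * 10 * √C' ≤ 12 * M * lam ^ 2 * (1 + √C') := by
          have t1 : lam ^ 2 * √C' * 10 ≤ lam ^ 2 * √C' * (12 * M) := by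
            refine mul_le_mul_of_nonneg_left ?_ (by positivity)
            linarith
          have t2 : 0 ≤ 12 * M * lam ^ 2 := by positivity
          nlinarith
        linarith
      calc (lam * H) ^ 2 * 10 = lam ^ 2 * 10 * H ^ 2 := by ring
        _ ≤ lam ^ 2 * 10 * (√C' * (H ^ 2 / √(H * X₁))) := mul_le_mul_of_nonneg_left g4 (by positivity)
        _ = (lam ^ 2 * 10 * √C') * (H ^ 2 / √(H * X₁)) := by ring
        _ ≤ C * (H ^ 2 / √(H * X₁)) := mul_le_mul_of_nonneg_right g6 g5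
        _ ≤ C * (1 + H ^ 2 / √(H * X₁)) := by
            refine mul_le_mul_of_nonneg_left ?_ (by linarith)
            linarith
    rw [h3, Finset.card_product]
    push_cast
    have h4 := Pool.Agent.Helper92.GC.n6_gs_card hv A ha (Pool.Agent.Helper78.CG.ff x₀ q)
    have h5 : n6 (mu v) (gs A a (Pool.Agent.Helper78.CG.ff x₀ q)) ^ 3 ≤ ((A.card : ℝ) ^ (5 / 3 : ℝ)) ^ 3 :=
      pow_le_pow_left₀ (Pool.Agent.Helper22.AC.n6_nonneg _ _) h4 3
    have h6' : ((A.card : ℝ) ^ (5 / 3 : ℝ)) ^ 3 = (A.card : ℝ) ^ 5 := by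
      rw [← rpow_natCast, ← rpow_mul (by positivity), ← rpow_natCast]
      norm_num
    rw [h6'] at h5
    refine h5.trans ?_
    have h7 : (A.card : ℝ) ^ 5 = 1 * 1 * (A.card : ℝ) * ((A.card : ℝ) * (A.card : ℝ)) ^ 2 := by ring
    rw [h7]
    gcongr

private theorem q6_fin (S : Finset (ℤ × ℤ)) :
    Continuous (fun z : S → ℂ => ∫ c in Tq, ‖∑ k : S, z k * ee (dt (k : ℤ × ℤ) c)‖ ^ 6) := by
  have hcomp : IsCompact Tq := isCompact_Icc.prod isCompact_Icc
  refine continuous_parametric_integral_of_continuous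
    (f := fun (z : S → ℂ) (c : ℝ × ℝ) => ‖∑ k : S, z k * ee (dt (k : ℤ × ℤ) c)‖ ^ 6) ?_ hcomp
  have h1 : Continuous (fun q : (S → ℂ) × (ℝ × ℝ) => ∑ k : S, q.1 k * ee (dt (k : ℤ × ℤ) q.2)) := by
    unfold dt
    refine continuous_finsetSum _ fun k _ => ?_
    exact Continuous.mul ((continuous_apply k).comp continuous_fst) (ee_cont.comp (by fun_prop))
  exact h1.norm.pow 6

private theorem q6_cont {X : Type} [TopologicalSpace X] (S : Finset (ℤ × ℤ)) (b : X → ℤ × ℤ → ℂ)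
    (hb : ∀ k ∈ S, Continuous (fun q => b q k)) : Continuous (fun q => m6 S (b q)) := by
  have h1 : (fun q => m6 S (b q)) =
      (fun z : S → ℂ => ∫ c in Tq, ‖∑ k : S, z k * ee (dt (k : ℤ × ℤ) c)‖ ^ 6) ∘
        fun q => fun k : S => b q k := by
    funext q
    simp only [Function.comp, m6, tp]
    congr 1
    funext c
    rw [← Finset.sum_coe_sort S (fun k => b q k * ee (dt k c))]
  rw [h1]
  exact (q6_fin S).comp (continuous_pi fun k => hb k k.2)

private theorem q6_tq : IsProbabilityMeasure ((volume : Measure (ℝ × ℝ)).restrict Tq) := by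
  constructor
  unfold Tq
  rw [Measure.restrict_apply_univ, Measure.volume_eq_prod, Measure.prod_prod, Real.volume_Icc,
    sub_zero, ENNReal.ofReal_one, mul_one]

private theorem q6_tp_cont (S : Finset (ℤ × ℤ)) (b : ℤ × ℤ → ℂ) : Continuous (tp S b) := by
  unfold tp
  refine continuous_finsetSum _ fun k _ => continuous_const.mul (ee_cont.comp ?_)
  unfold dt
  fun_prop

private theorem q6_tp_card (S : Finset (ℤ × ℤ)) {b : ℤ × ℤ → ℂ} (hb : ∀ k, ‖b k‖ ≤ 1) (c : ℝ × ℝ) : ‖tp S b c‖ ≤ S.card := by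
  unfold tp
  refine (norm_sum_le _ _).trans ?_
  have h : ∀ k ∈ S, ‖b k * ee (dt k c)‖ ≤ 1 := by
    intro k _
    rw [norm_mul, ee_norm, mul_one]
    exact hb k
  refine (Finset.sum_le_sum h).trans (le_of_eq ?_)
  simp

private theorem q6_m6_card (S : Finset (ℤ × ℤ)) {b : ℤ × ℤ → ℂ} (hb : ∀ k, ‖b k‖ ≤ 1) : m6 S b ≤ (S.card : ℝ) ^ 6 := by
  have hp := q6_tq
  have h : m6 S b ≤ ∫ c in Tq, ((S.card : ℝ) ^ 6) := by
    unfold m6
    refine integral_mono_of_nonneg (Filter.Eventually.of_forall fun q => by positivity) (integrable_const _)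
      (Filter.Eventually.of_forall fun c => ?_)
    exact pow_le_pow_left₀ (norm_nonneg _) (q6_tp_card S hb c) 6
  refine h.trans (le_of_eq ?_)
  rw [integral_const, probReal_univ, one_smul]

private theorem q6_m6_nonneg (S : Finset (ℤ × ℤ)) (b : ℤ × ℤ → ℂ) : 0 ≤ m6 S b := by
  unfold m6
  exact integral_nonneg fun c => by positivity

private theorem q6_wt {X : ℝ} {v : ℝ → ℝ} (hv : IsWt X v) : Integrable v := by
  by_contra hcon
  have h2 := hv.int_one
  rw [integral_undef hcon] at h2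
  exact zero_ne_one h2

/-- one interval of length `X` -/
private theorem q6_line {c₀ X R₁ Q : ℝ} (hc₀ : 0 < c₀) (hX : 0 < X) {v : ℝ → ℝ} (hv : IsWt X v)
    (hlo : ∀ R ∈ Icc R₁ (R₁ + X), c₀ / X ≤ v R) (A : Finset (ℤ × ℤ)) {a : ℤ × ℤ → ℂ} (ha : ∀ k, ‖a k‖ ≤ 1) (f : ℤ × ℤ → ℝ)
    (hQ : n6 (mu v) (gs A a f) ^ 3 ≤ Q) :
    ∫⁻ R in Icc R₁ (R₁ + X), ENNReal.ofReal (m6 A (fun k => a k * ee (R * f k))) ≤ ENNReal.ofReal (X / c₀ * Q) := by
  have hcont : Continuous (fun R : ℝ => m6 A (fun k => a k * ee (R * f k))) := by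
    refine q6_cont A (fun (R : ℝ) k => a k * ee (R * f k)) fun k _ => ?_
    exact continuous_const.mul (ee_cont.comp (by fun_prop))
  have hle : ∀ R : ℝ, m6 A (fun k => a k * ee (R * f k)) ≤ (A.card : ℝ) ^ 6 := by
    intro R
    refine q6_m6_card A fun k => ?_
    rw [norm_mul, ee_norm, mul_one]
    exact ha k
  have hint : Integrable (fun R => v R * m6 A (fun k => a k * ee (R * f k))) := by
    refine ((q6_wt hv).mul_const ((A.card : ℝ) ^ 6)).mono' (hv.cont.mul hcont).aestronglyMeasurable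
      (Filter.Eventually.of_forall fun R => ?_)
    rw [Real.norm_of_nonneg (mul_nonneg (hv.nonneg R) (q6_m6_nonneg _ _))]
    exact mul_le_mul_of_nonneg_left (hle R) (hv.nonneg R)
  have hXc : 0 < X / c₀ := by positivity
  calc ∫⁻ R in Icc R₁ (R₁ + X), ENNReal.ofReal (m6 A (fun k => a k * ee (R * f k)))
      ≤ ∫⁻ R in Icc R₁ (R₁ + X), ENNReal.ofReal (X / c₀ * (v R * m6 A (fun k => a k * ee (R * f k)))) := by
        refine setLIntegral_mono' measurableSet_Icc fun R hR => ENNReal.ofReal_le_ofReal ?_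
        have h1 := hlo R hR
        have h2 := q6_m6_nonneg A (fun k => a k * ee (R * f k))
        have h3 : 1 ≤ X / c₀ * v R := by
          rw [div_mul_eq_mul_div, le_div_iff₀ hc₀, one_mul]
          rw [div_le_iff₀ hX] at h1
          linarith
        calc m6 A (fun k => a k * ee (R * f k)) = 1 * m6 A (fun k => a k * ee (R * f k)) := (one_mul _).symm
          _ ≤ X / c₀ * v R * m6 A (fun k => a k * ee (R * f k)) := mul_le_mul_of_nonneg_right h3 h2
          _ = _ := by ring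
    _ ≤ ∫⁻ R, ENNReal.ofReal (X / c₀ * (v R * m6 A (fun k => a k * ee (R * f k)))) := setLIntegral_le_lintegral _ _
    _ = ENNReal.ofReal (∫ R, X / c₀ * (v R * m6 A (fun k => a k * ee (R * f k)))) := by
        rw [ofReal_integral_eq_lintegral_ofReal (hint.const_mul _)]
        exact Filter.Eventually.of_forall fun R => mul_nonneg hXc.le (mul_nonneg (hv.nonneg R) (q6_m6_nonneg _ _))
    _ ≤ ENNReal.ofReal (X / c₀ * Q) := by
        rw [integral_const_mul, ← Pool.Agent.Helper92.GC.n6_slice hv A a f]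
        exact ENNReal.ofReal_le_ofReal (mul_le_mul_of_nonneg_left hQ hXc.le)

/-- the slice of the phase -/
private noncomputable def q6q (h : ℝ × ℝ → ℝ) (θ x y t : ℝ) : ℝ :=
  h (cos θ * (1 + x * t) - sin θ * (y * t), sin θ * (1 + x * t) + cos θ * (y * t))

/-- the local form of a slice and its derivatives -/
private theorem q6_loc {p : ℝ → ℝ} (hp : ContDiff ℝ 4 p) {r α β : ℝ} (hr : 0 < r) {s : ℝ} (hs : 0 < r + α * s) :
    HasDerivAt (fun s => (r + α * s) * p (β * s / (r + α * s))) (α * p (β * s / (r + α * s)) + β * r / (r + α * s) * deriv p (β * s / (r + α * s))) s ∧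
    HasDerivAt (fun s => α * p (β * s / (r + α * s)) + β * r / (r + α * s) * deriv p (β * s / (r + α * s)))
      (β ^ 2 * r ^ 2 / (r + α * s) ^ 3 * deriv (deriv p) (β * s / (r + α * s))) s := by
  have hd0 : Differentiable ℝ p := hp.differentiable (by norm_num)
  have hp1 : ContDiff ℝ 3 (deriv p) := by
    have e : (3 : WithTop ℕ∞) + 1 = 4 := by norm_num
    exact ((contDiff_succ_iff_deriv (n := 3)).1 (by rw [e]; exact hp)).2.2
  have hd1 : Differentiable ℝ (deriv p) := hp1.differentiable (by norm_num)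
  have hu : HasDerivAt (fun s : ℝ => r + α * s) α s := by
    simpa using ((hasDerivAt_id s).const_mul α).const_add r
  have hv : HasDerivAt (fun s : ℝ => β * s) β s := by
    simpa using (hasDerivAt_id s).const_mul β
  have hz : HasDerivAt (fun s : ℝ => β * s / (r + α * s)) (β * r / (r + α * s) ^ 2) s := by
    refine (hv.div hu hs.ne').congr_deriv ?_
    congr 1
    ring
  have h1 : HasDerivAt (fun s : ℝ => p (β * s / (r + α * s))) (deriv p (β * s / (r + α * s)) * (β * r / (r + α * s) ^ 2)) s :=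
    (hd0 _).hasDerivAt.comp s hz
  have h2 : HasDerivAt (fun s : ℝ => deriv p (β * s / (r + α * s))) (deriv (deriv p) (β * s / (r + α * s)) * (β * r / (r + α * s) ^ 2)) s :=
    (hd1 _).hasDerivAt.comp s hz
  have h3 : HasDerivAt (fun s : ℝ => β * r / (r + α * s)) (-(β * r * α) / (r + α * s) ^ 2) s := by
    refine ((hasDerivAt_const s (β * r)).div hu hs.ne').congr_deriv ?_
    congr 1
    ring
  constructor
  · refine (hu.mul h1).congr_deriv ?_
    field_simp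
  · refine ((h1.const_mul α).add (h3.mul h2)).congr_deriv ?_
    field_simp
    ring

private theorem q6_crv {c₁ b L : ℝ} (hc₁ : 0 < c₁) (hb : 1 ≤ b) (hL : 1 ≤ L) : ∃ c C₀ : ℝ, 0 < c ∧ ∀ (h : ℝ × ℝ → ℝ) (θ x y : ℝ), Hom c₁ b h →
    |x| ≤ L → |y| ≤ L → 1 ≤ L * |y| → Crv6 c C₀ 2 (q6q h θ x y) := by
  have hL0 : 0 < L := by linarith
  have hb0 : 0 < b := by linarith
  obtain ⟨G, hG⟩ : ∃ G : ℝ, G = (1 + 2 * L) ^ 2 + 4 * L ^ 2 := ⟨_, rfl⟩
  have hG0 : 0 < G := by rw [hG]; positivity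
  obtain ⟨m, hm⟩ : ∃ m : ℝ, m = 1 / (2 * L ^ 4) := ⟨_, rfl⟩
  have hm0 : 0 < m := by rw [hm]; positivity
  refine ⟨1 / L ^ 2 / (G * √G) * c₁, L ^ 2 / (m * √m) * b, by positivity, ?_⟩
  intro h θ x y hh hx hy hy1
  have hy0 : 0 < |y| := by
    by_contra hcon
    push Not at hcon
    nlinarith [abs_nonneg y]
  have hx2 : x ^ 2 ≤ L ^ 2 := by
    rw [← sq_abs x]
    exact pow_le_pow_left₀ (abs_nonneg _) hx 2
  have hy2 : y ^ 2 ≤ L ^ 2 := by
    rw [← sq_abs y]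
    exact pow_le_pow_left₀ (abs_nonneg _) hy 2
  have hy3 : 1 ≤ L ^ 2 * y ^ 2 := by
    rw [← sq_abs y, ← mul_pow]
    exact one_le_pow₀ hy1
  have hy4 : 0 < y ^ 2 := by
    rw [← sq_abs y]
    positivity
  have hD : 0 < x ^ 2 + y ^ 2 := by positivity
  have hg0 : ∀ t : ℝ, m ≤ (1 + x * t) ^ 2 + y ^ 2 * t ^ 2 := by
    intro t
    have h1 : y ^ 2 ≤ (x ^ 2 + y ^ 2) * ((1 + x * t) ^ 2 + y ^ 2 * t ^ 2) := by
      nlinarith [sq_nonneg (x + (x ^ 2 + y ^ 2) * t)]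
    have h2 : (x ^ 2 + y ^ 2) * ((1 + x * t) ^ 2 + y ^ 2 * t ^ 2) ≤ (2 * L ^ 2) * ((1 + x * t) ^ 2 + y ^ 2 * t ^ 2) := by
      refine mul_le_mul_of_nonneg_right (by linarith) (by positivity)
    rw [hm, div_le_iff₀ (by positivity)]
    calc (1 : ℝ) ≤ L ^ 2 * y ^ 2 := hy3
      _ ≤ L ^ 2 * ((2 * L ^ 2) * ((1 + x * t) ^ 2 + y ^ 2 * t ^ 2)) := by
        refine mul_le_mul_of_nonneg_left (h1.trans h2) (by positivity)
      _ = _ := by ring
  -- the local form at `t₁`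
  have hloc : ∀ t₁ : ℝ, ∃ (p : ℝ → ℝ) (r α β : ℝ), Cv c₁ b p ∧ 0 < r ∧ r ^ 2 = (1 + x * t₁) ^ 2 + y ^ 2 * t₁ ^ 2 ∧ r * β = y ∧
      ∀ s : ℝ, 0 < r + α * s → q6q h θ x y (t₁ + s) = (r + α * s) * p (β * s / (r + α * s)) := by
    intro t₁
    obtain ⟨r, hr⟩ : ∃ r, r = √((1 + x * t₁) ^ 2 + y ^ 2 * t₁ ^ 2) := ⟨_, rfl⟩
    have hg := hg0 t₁
    have hr0 : 0 < r := by
      rw [hr]
      exact sqrt_pos.2 (by linarith)
    have hr2 : r ^ 2 = (1 + x * t₁) ^ 2 + y ^ 2 * t₁ ^ 2 := by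
      rw [hr]
      exact sq_sqrt (by positivity)
    obtain ⟨V, hV⟩ : ∃ V : ℝ, V = cos θ * (1 + x * t₁) - sin θ * (y * t₁) := ⟨_, rfl⟩
    obtain ⟨V', hV'⟩ : ∃ V : ℝ, V = sin θ * (1 + x * t₁) + cos θ * (y * t₁) := ⟨_, rfl⟩
    have hsc := sin_sq_add_cos_sq θ
    have hVr : V ^ 2 + V' ^ 2 = r ^ 2 := by
      rw [hV, hV', hr2]
      linear_combination ((1 + x * t₁) ^ 2 + y ^ 2 * t₁ ^ 2) * hsc
    obtain ⟨z, hz⟩ : ∃ z : ℂ, z = ⟨V, V'⟩ := ⟨_, rfl⟩
    have hz0 : z ≠ 0 := by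
      intro h0
      have e1 : V = 0 := by
        have := congrArg Complex.re h0
        rw [hz] at this
        exact this
      have e2 : V' = 0 := by
        have := congrArg Complex.im h0
        rw [hz] at this
        exact this
      rw [e1, e2] at hVr
      have : 0 < r ^ 2 := by positivity
      linarith
    have hzn : ‖z‖ = r := by
      rw [Complex.norm_def, Complex.normSq_apply, hz]
      simp only
      rw [show V * V + V' * V' = r ^ 2 by rw [← hVr]; ring]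
      exact sqrt_sq hr0.le
    obtain ⟨φ, hφ⟩ : ∃ φ, φ = Complex.arg z := ⟨_, rfl⟩
    have hc : cos φ = V / r := by
      rw [hφ, Complex.cos_arg hz0, hzn, hz]
    have hs : sin φ = V' / r := by
      rw [hφ, Complex.sin_arg, hzn, hz]
    have hVc : V = r * cos φ := by
      rw [hc]
      field_simp
    have hVs : V' = r * sin φ := by
      rw [hs]
      field_simp
    obtain ⟨w, hw⟩ : ∃ w : ℝ, w = x * cos θ - y * sin θ := ⟨_, rfl⟩
    obtain ⟨w', hw'⟩ : ∃ w' : ℝ, w' = x * sin θ + y * cos θ := ⟨_, rfl⟩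
    have hsφ := sin_sq_add_cos_sq φ
    refine ⟨sl h φ, r, w * cos φ + w' * sin φ, -(w * sin φ) + w' * cos φ, hh.cv φ, hr0, hr2, ?_, ?_⟩
    · have e1 : r * (-(w * sin φ) + w' * cos φ) = w' * V - w * V' := by
        rw [hVc, hVs]
        ring
      rw [e1, hV, hV', hw, hw']
      linear_combination y * hsc
    · intro s hs0
      obtain ⟨u, hu⟩ : ∃ u, u = r + (w * cos φ + w' * sin φ) * s := ⟨_, rfl⟩
      rw [← hu] at hs0 ⊢
      have e2 := hh.hom u (cos φ - (-(w * sin φ) + w' * cos φ) * s / u * sin φ, sin φ + (-(w * sin φ) + w' * cos φ) * s / u * cos φ) hs0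
      unfold sl
      rw [← e2]
      unfold q6q
      congr 1
      refine Prod.ext ?_ ?_
      · change cos θ * (1 + x * (t₁ + s)) - sin θ * (y * (t₁ + s)) = u * (cos φ - (-(w * sin φ) + w' * cos φ) * s / u * sin φ)
        have e3 : u * (cos φ - (-(w * sin φ) + w' * cos φ) * s / u * sin φ) = u * cos φ - (-(w * sin φ) + w' * cos φ) * s * sin φ := by
          field_simp
        have e4 : cos θ * (1 + x * (t₁ + s)) - sin θ * (y * (t₁ + s)) = V + s * w := by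
          rw [hV, hw]
          ring
        rw [e3, e4, hVc, hu]
        linear_combination (-(s * w)) * hsφ
      · change sin θ * (1 + x * (t₁ + s)) + cos θ * (y * (t₁ + s)) = u * (sin φ + (-(w * sin φ) + w' * cos φ) * s / u * cos φ)
        have e3 : u * (sin φ + (-(w * sin φ) + w' * cos φ) * s / u * cos φ) = u * sin φ + (-(w * sin φ) + w' * cos φ) * s * cos φ := by
          field_simp
        have e4 : sin θ * (1 + x * (t₁ + s)) + cos θ * (y * (t₁ + s)) = V' + s * w' := by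
          rw [hV', hw']
          ring
        rw [e3, e4, hVs, hu]
        linear_combination (-(s * w')) * hsφ
  refine ⟨deriv (q6q h θ x y), deriv (deriv (q6q h θ x y)), ?_⟩
  intro t ht
  obtain ⟨p, r, α, β, hp, hr0, hr2, hrβ, hq⟩ := hloc t
  have hpos : ∀ᶠ t' in 𝓝 t, 0 < r + α * (t' - t) := by
    have hcont : Continuous (fun t' : ℝ => r + α * (t' - t)) := by fun_prop
    have h1 : 0 < r + α * (t - t) := by
      rw [sub_self, mul_zero, add_zero]
      exact hr0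
    exact hcont.continuousAt.eventually (lt_mem_nhds h1)
  have hsub : ∀ t' : ℝ, HasDerivAt (fun t' : ℝ => t' - t) 1 t' := fun t' => (hasDerivAt_id t').sub_const t
  have heq : q6q h θ x y =ᶠ[𝓝 t] fun t' => (r + α * (t' - t)) * p (β * (t' - t) / (r + α * (t' - t))) := by
    filter_upwards [hpos] with t' ht'
    rw [← hq (t' - t) ht']
    congr 1
    ring
  have hder : ∀ t' : ℝ, 0 < r + α * (t' - t) → (q6q h θ x y =ᶠ[𝓝 t'] fun t' => (r + α * (t' - t)) * p (β * (t' - t) / (r + α * (t' - t)))) →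
      HasDerivAt (q6q h θ x y) (α * p (β * (t' - t) / (r + α * (t' - t))) + β * r / (r + α * (t' - t)) * deriv p (β * (t' - t) / (r + α * (t' - t)))) t' := by
    intro t' h1 h2
    refine HasDerivAt.congr_of_eventuallyEq ?_ h2
    have h3 := (q6_loc hp.sm hr0 (α := α) (β := β) (s := t' - t) h1).1
    have h4 := h3.comp t' (hsub t')
    rw [mul_one] at h4
    exact h4
  have h1 : HasDerivAt (q6q h θ x y) (deriv (q6q h θ x y) t) t := by
    have h2 := hder t (by rw [sub_self, mul_zero, add_zero]; exact hr0) heq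
    rw [h2.deriv]
    exact h2
  have heq2 : deriv (q6q h θ x y) =ᶠ[𝓝 t] fun t' => α * p (β * (t' - t) / (r + α * (t' - t))) + β * r / (r + α * (t' - t)) * deriv p (β * (t' - t) / (r + α * (t' - t))) := by
    filter_upwards [hpos, heq.eventuallyEq_nhds] with t' h2 h3
    exact (hder t' h2 h3).deriv
  have h5 : HasDerivAt (deriv (q6q h θ x y)) (β ^ 2 * r ^ 2 / r ^ 3 * deriv (deriv p) 0) t := by
    refine HasDerivAt.congr_of_eventuallyEq ?_ heq2
    have h3 := (q6_loc hp.sm hr0 (α := α) (β := β) (s := t - t) (by rw [sub_self, mul_zero, add_zero]; exact hr0)).2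
    have h4 := HasDerivAt.comp (h := fun t' : ℝ => t' - t) t h3 (hsub t)
    rw [mul_one] at h4
    refine h4.congr_deriv ?_
    rw [sub_self, mul_zero, mul_zero, add_zero, zero_div]
  have hφ : deriv (deriv (q6q h θ x y)) t = y ^ 2 / (r ^ 2 * r) * deriv (deriv p) 0 := by
    rw [h5.deriv, ← hrβ]
    field_simp
  have ht2 : t ^ 2 ≤ 4 := by
    rw [← sq_abs t]
    nlinarith [abs_nonneg t]
  have hgG : (1 + x * t) ^ 2 + y ^ 2 * t ^ 2 ≤ G := by
    have h1 : |1 + x * t| ≤ 1 + 2 * L := by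
      refine (abs_add_le _ _).trans ?_
      rw [abs_one, abs_mul]
      nlinarith [abs_nonneg x, abs_nonneg t]
    have h2 : (1 + x * t) ^ 2 ≤ (1 + 2 * L) ^ 2 := by
      rw [← sq_abs (1 + x * t)]
      exact pow_le_pow_left₀ (abs_nonneg _) h1 2
    have h3 : y ^ 2 * t ^ 2 ≤ L ^ 2 * 4 := mul_le_mul hy2 ht2 (by positivity) (by positivity)
    rw [hG]
    linarith
  have hrm : m ≤ r ^ 2 := by
    rw [hr2]
    exact hg0 t
  have hrG : r ^ 2 ≤ G := by
    rw [hr2]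
    exact hgG
  have hrm' : √m ≤ r := sqrt_le_iff.2 ⟨hr0.le, hrm⟩
  have hrG' : r ≤ √G := le_sqrt_of_sq_le hrG
  have hplo := hp.lo 0 (by norm_num)
  have hphi := hp.d2 0 (by norm_num)
  refine ⟨h1, ?_, ?_, ?_⟩
  · rw [h5.deriv]
    exact h5
  · rw [hφ]
    have h6 : 1 / L ^ 2 / (G * √G) ≤ y ^ 2 / (r ^ 2 * r) := by
      have h7 : r ^ 2 * r ≤ G * √G := mul_le_mul hrG hrG' hr0.le hG0.le
      have h8 : 1 / L ^ 2 ≤ y ^ 2 := by
        rw [div_le_iff₀ (by positivity)]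
        linarith
      exact div_le_div₀ hy4.le h8 (by positivity) h7
    exact mul_le_mul h6 hplo hc₁.le (by positivity)
  · rw [hφ]
    have h6 : y ^ 2 / (r ^ 2 * r) ≤ L ^ 2 / (m * √m) := by
      have h7 : m * √m ≤ r ^ 2 * r := mul_le_mul hrm hrm' (sqrt_nonneg _) (by positivity)
      exact div_le_div₀ (by positivity) hy2 (by positivity) h7
    exact mul_le_mul h6 ((le_abs_self _).trans hphi) (hc₁.le.trans hplo) (by positivity)

private theorem q6_nm {c₁ b : ℝ} {h : ℝ × ℝ → ℝ} (hh : Hom c₁ b h) {θ y T x : ℝ} (hT : 0 < T) {k : ℤ × ℤ} (hk : 0 < (k.1 : ℝ)) :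
    h (vf (fr θ y T x) k) = T * (uu 0 k * q6q h θ x y (tt 0 k)) := by
  have hu : uu 0 k = k.1 := by
    unfold uu
    ring
  have ht : (k.2 : ℝ) = k.1 * tt 0 k := by
    unfold tt
    rw [hu]
    field_simp
  obtain ⟨t, hte⟩ : ∃ t : ℝ, t = tt 0 k := ⟨_, rfl⟩
  rw [hu, ← hte]
  rw [← hte] at ht
  have e := hh.hom (T * k.1) (cos θ * (1 + x * t) - sin θ * (y * t), sin θ * (1 + x * t) + cos θ * (y * t)) (by positivity)
  unfold q6q
  rw [← mul_assoc, ← e]
  congr 1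
  unfold vf fr
  simp only
  rw [ht]
  refine Prod.ext ?_ ?_
  · change (k.1 : ℝ) * (T * cos θ) + k.1 * t * (T * (x * cos θ - y * sin θ)) = T * k.1 * (cos θ * (1 + x * t) - sin θ * (y * t))
    ring
  · change (k.1 : ℝ) * (T * sin θ) + k.1 * t * (T * (x * sin θ + y * cos θ)) = T * k.1 * (sin θ * (1 + x * t) + cos θ * (y * t))
    ring

private theorem q6_UB (B X : ℝ) : MeasurableSet (UB B X) := by
  have h3 : Measurable df := by
    unfold df
    fun_prop
  have a1 : Measurable (fun f : Fr => |f.1.1|) := by fun_prop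
  have a2 : Measurable (fun f : Fr => |f.1.2|) := by fun_prop
  have a3 : Measurable (fun f : Fr => |f.2.1|) := by fun_prop
  have a4 : Measurable (fun f : Fr => |f.2.2|) := by fun_prop
  have a5 : Measurable (fun f : Fr => B * |df f|) := by fun_prop
  exact (measurableSet_le a1 measurable_const).inter ((measurableSet_le a2 measurable_const).inter
    ((measurableSet_le a3 measurable_const).inter ((measurableSet_le a4 measurable_const).inter
    (measurableSet_le measurable_const a5))))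

private theorem q6_UB_fr {B X θ y T x : ℝ} (hB : 1 ≤ B) (hX : 0 < X) (hT : 0 < T) (h : fr θ y T x ∈ UB B X) :
    T ≤ 2 * B * X ∧ |x| ≤ 2 * B ^ 3 ∧ |y| ≤ 2 * B ^ 3 ∧ 1 ≤ 2 * B ^ 3 * |y| := by
  obtain ⟨h1, h2, h3, h4, h5⟩ := h
  have e4 := (Pool.Agent.Helper60.LT.fr_coord (θ := θ) (y := y) (T := T) (x := x) hT).2.2.2
  rw [e4] at h5
  unfold fr at h1 h2 h3 h4
  simp only at h1 h2 h3 h4
  have hB0 : 0 < B := by linarith
  have hc := sin_sq_add_cos_sq θ
  have g1 : (T * cos θ) ^ 2 ≤ (B * X) ^ 2 := by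
    rw [← sq_abs (T * cos θ)]
    exact pow_le_pow_left₀ (abs_nonneg _) h1 2
  have g2 : (T * sin θ) ^ 2 ≤ (B * X) ^ 2 := by
    rw [← sq_abs (T * sin θ)]
    exact pow_le_pow_left₀ (abs_nonneg _) h2 2
  have g3 : (T * (x * cos θ - y * sin θ)) ^ 2 ≤ (B * X) ^ 2 := by
    rw [← sq_abs (T * (x * cos θ - y * sin θ))]
    exact pow_le_pow_left₀ (abs_nonneg _) h3 2
  have g4 : (T * (x * sin θ + y * cos θ)) ^ 2 ≤ (B * X) ^ 2 := by
    rw [← sq_abs (T * (x * sin θ + y * cos θ))]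
    exact pow_le_pow_left₀ (abs_nonneg _) h4 2
  have k1 : T ^ 2 ≤ 2 * (B * X) ^ 2 := by
    have : T ^ 2 = (T * cos θ) ^ 2 + (T * sin θ) ^ 2 := by linear_combination (-T ^ 2) * hc
    linarith
  have k2 : T ^ 2 * (x ^ 2 + y ^ 2) ≤ 2 * (B * X) ^ 2 := by
    have : T ^ 2 * (x ^ 2 + y ^ 2) = (T * (x * cos θ - y * sin θ)) ^ 2 + (T * (x * sin θ + y * cos θ)) ^ 2 := by
      linear_combination (-(T ^ 2 * (x ^ 2 + y ^ 2))) * hc
    linarith
  have k3 : X ^ 2 ≤ B * (T ^ 2 * |y|) := by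
    rw [abs_mul, abs_of_pos (by positivity : 0 < T ^ 2)] at h5
    exact h5
  have hy : 0 < |y| := by
    by_contra hcon
    push Not at hcon
    have h0 : |y| = 0 := le_antisymm hcon (abs_nonneg _)
    rw [h0, mul_zero, mul_zero] at k3
    nlinarith
  have hX2 : 0 < X ^ 2 := by positivity
  have k4 : |y| ≤ 2 * B ^ 3 := by
    have a1 : T ^ 2 * |y| ^ 2 ≤ 2 * (B * X) ^ 2 := by
      rw [sq_abs]
      have : 0 ≤ T ^ 2 * x ^ 2 := by positivity
      linarith
    have a2 : X ^ 2 * |y| ≤ X ^ 2 * (2 * B ^ 3) := by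
      calc X ^ 2 * |y| ≤ B * (T ^ 2 * |y|) * |y| := mul_le_mul_of_nonneg_right k3 (abs_nonneg _)
        _ = B * (T ^ 2 * |y| ^ 2) := by ring
        _ ≤ B * (2 * (B * X) ^ 2) := mul_le_mul_of_nonneg_left a1 hB0.le
        _ = _ := by ring
    exact le_of_mul_le_mul_left a2 hX2
  have k5 : 1 ≤ 2 * B ^ 3 * |y| := by
    have a2 : X ^ 2 * 1 ≤ X ^ 2 * (2 * B ^ 3 * |y|) := by
      calc X ^ 2 * 1 = X ^ 2 := mul_one _
        _ ≤ B * (T ^ 2 * |y|) := k3
        _ ≤ B * ((2 * (B * X) ^ 2) * |y|) := by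
          refine mul_le_mul_of_nonneg_left (mul_le_mul_of_nonneg_right k1 (abs_nonneg _)) hB0.le
        _ = _ := by ring
    exact le_of_mul_le_mul_left a2 hX2
  refine ⟨?_, ?_, k4, k5⟩
  · have : T ^ 2 ≤ (2 * B * X) ^ 2 := by
      refine k1.trans ?_
      have : 0 ≤ (B * X) ^ 2 := by positivity
      nlinarith
    exact le_of_sq_le_sq this (by positivity)
  · have a1 : X ^ 2 ≤ 2 * B ^ 4 * T ^ 2 := by
      calc X ^ 2 ≤ B * (T ^ 2 * |y|) := k3
        _ ≤ B * (T ^ 2 * (2 * B ^ 3)) := by gcongr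
        _ = _ := by ring
    have a2 : T ^ 2 * x ^ 2 ≤ 2 * (B * X) ^ 2 := by
      have : 0 ≤ T ^ 2 * y ^ 2 := by positivity
      linarith
    have a3 : X ^ 2 * x ^ 2 ≤ X ^ 2 * (2 * B ^ 3) ^ 2 := by
      calc X ^ 2 * x ^ 2 ≤ 2 * B ^ 4 * T ^ 2 * x ^ 2 := mul_le_mul_of_nonneg_right a1 (by positivity)
        _ = 2 * B ^ 4 * (T ^ 2 * x ^ 2) := by ring
        _ ≤ 2 * B ^ 4 * (2 * (B * X) ^ 2) := mul_le_mul_of_nonneg_left a2 (by positivity)
        _ = _ := by ring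
    have a4 := le_of_mul_le_mul_left a3 hX2
    exact abs_le_of_sq_le_sq a4 (by positivity)


/-- the integral over the lengths up to `2 B X` for fixed shape -/
private theorem q6_T {ε lam B L c₁ b : ℝ} (hε : 0 < ε) (hl : 1 ≤ lam) (_hB : 1 ≤ B) (hL : 1 ≤ L) (hc₁ : 0 < c₁) (hb : 1 ≤ b) : ∃ C : ℝ, 1 ≤ C ∧
    ∀ (h : ℝ × ℝ → ℝ) (X H : ℝ) (A : Finset (ℤ × ℤ)) (θ x y : ℝ), Hom c₁ b h → 1 ≤ X → 1 ≤ H → Cone H lam A → |x| ≤ L → |y| ≤ L → 1 ≤ L * |y| →
      ∫⁻ T in Ioc 0 (2 * B * X), ENNReal.ofReal (m6 A (fun k => 1 * ee (T * (Pool.Agent.Helper78.CG.ff 0 (q6q h θ x y) k)))) ≤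
        ENNReal.ofReal (C * X * H ^ ε * (A.card : ℝ) * ((q6P A (C * (1 + H ^ 2 / √(H * X)))).card : ℝ) ^ 2) := by
  classical
  obtain ⟨c, C₀, hc, hcrv⟩ := q6_crv (b := b) hc₁ hb hL
  obtain ⟨C₁, hC₁, hsix⟩ := q6_six (ε := ε) (c₁ := c) (C₀ := C₀) (lam := lam) hε hc hl
  obtain ⟨c₀, hc₀, hwt⟩ := Pool.Agent.Helper22.AC.exists_wt
  obtain ⟨N, hN⟩ : ∃ N : ℕ, N = ⌊2 * B⌋₊ + 1 := ⟨_, rfl⟩
  obtain ⟨C, hC⟩ : ∃ C : ℝ, C = C₁ * (1 + N / c₀) := ⟨_, rfl⟩
  have hN0 : (0 : ℝ) ≤ N := Nat.cast_nonneg _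
  have hCC : C₁ ≤ C := by
    rw [hC]
    have : 0 ≤ (N : ℝ) / c₀ := by positivity
    nlinarith
  refine ⟨C, hC₁.trans hCC, ?_⟩
  intro h X H A θ x y hh hX hH hA hx hy hy1
  have hX0 : 0 < X := by linarith
  have hH0 : 0 < H := by linarith
  have hAu : ∀ k ∈ A, H / lam ≤ uu 0 k ∧ uu 0 k ≤ lam * H ∧ |tt 0 k| ≤ 2 := by
    intro k hk
    obtain ⟨h1, h2, h3⟩ := hA k hk
    have hk0 : 0 < (k.1 : ℝ) := lt_of_lt_of_le (by positivity) h1
    have hu : uu 0 k = k.1 := by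
      unfold uu
      ring
    refine ⟨by rw [hu]; exact h1, by rw [hu]; exact h2, ?_⟩
    unfold tt
    rw [hu, abs_div, abs_of_pos hk0, div_le_iff₀ hk0]
    exact h3
  obtain ⟨Q, hQ⟩ : ∃ Q : ℝ, Q = C₁ * H ^ ε * (A.card : ℝ) * ((q6P A (C₁ * (1 + H ^ 2 / √(H * X)))).card : ℝ) ^ 2 := ⟨_, rfl⟩
  have hQ0 : 0 ≤ Q := by rw [hQ]; positivity
  have hcov : Ioc 0 (2 * B * X) ⊆ ⋃ i : Fin N, Icc ((i : ℕ) * X) ((i : ℕ) * X + X) := by
    intro T hT
    rw [mem_iUnion]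
    have h1 : 0 ≤ T / X := div_nonneg hT.1.le hX0.le
    have h2 : T / X ≤ 2 * B := by
      rw [div_le_iff₀ hX0]
      exact hT.2
    have h3 : ⌊T / X⌋₊ < N := by
      rw [hN]
      exact Nat.lt_succ_of_le (Nat.floor_le_floor h2)
    refine ⟨⟨⌊T / X⌋₊, h3⟩, ?_, ?_⟩
    · have := Nat.floor_le h1
      rw [le_div_iff₀ hX0] at this
      exact this
    · have := (Nat.lt_floor_add_one (T / X)).le
      rw [div_le_iff₀ hX0] at this
      simp only
      linarith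
  have hone : ∀ i : Fin N, ∫⁻ T in Icc ((i : ℕ) * X) ((i : ℕ) * X + X),
      ENNReal.ofReal (m6 A (fun k => 1 * ee (T * (Pool.Agent.Helper78.CG.ff 0 (q6q h θ x y) k)))) ≤ ENNReal.ofReal (X / c₀ * Q) := by
    intro i
    obtain ⟨v, hv, hv1⟩ := hwt X hX0 ((i : ℕ) * X)
    refine q6_line hc₀ hX0 hv hv1 A (a := fun _ => (1 : ℂ)) (fun _ => by rw [norm_one]) (Pool.Agent.Helper78.CG.ff 0 (q6q h θ x y)) ?_
    rw [hQ]
    exact hsix (q6q h θ x y) 0 2 H X v (fun _ => 1) A (hcrv h θ x y hh hx hy hy1) (fun _ => by rw [norm_one]) two_pos (by norm_num) hH hX0 hv hAu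
  calc ∫⁻ T in Ioc 0 (2 * B * X), ENNReal.ofReal (m6 A (fun k => 1 * ee (T * (Pool.Agent.Helper78.CG.ff 0 (q6q h θ x y) k))))
      ≤ ∫⁻ T in ⋃ i : Fin N, Icc ((i : ℕ) * X) ((i : ℕ) * X + X),
          ENNReal.ofReal (m6 A (fun k => 1 * ee (T * (Pool.Agent.Helper78.CG.ff 0 (q6q h θ x y) k)))) := lintegral_mono_set hcov
    _ ≤ ∑' i : Fin N, ∫⁻ T in Icc ((i : ℕ) * X) ((i : ℕ) * X + X),
          ENNReal.ofReal (m6 A (fun k => 1 * ee (T * (Pool.Agent.Helper78.CG.ff 0 (q6q h θ x y) k)))) := lintegral_iUnion_le _ _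
    _ ≤ ∑' _ : Fin N, ENNReal.ofReal (X / c₀ * Q) := ENNReal.tsum_le_tsum hone
    _ = ENNReal.ofReal (N * (X / c₀ * Q)) := by
        rw [tsum_fintype, Finset.sum_const, Finset.card_univ, Fintype.card_fin, nsmul_eq_mul, ENNReal.ofReal_mul hN0,
          ENNReal.ofReal_natCast]
    _ ≤ _ := by
        refine ENNReal.ofReal_le_ofReal ?_
        have h1 : ((q6P A (C₁ * (1 + H ^ 2 / √(H * X)))).card : ℝ) ≤ ((q6P A (C * (1 + H ^ 2 / √(H * X)))).card : ℝ) :=
          q6P_mono (mul_le_mul_of_nonneg_right hCC (by positivity))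
        have h2 : C₁ * (N / c₀) ≤ C := by
          rw [hC]
          nlinarith
        rw [hQ]
        calc (N : ℝ) * (X / c₀ * (C₁ * H ^ ε * (A.card : ℝ) * ((q6P A (C₁ * (1 + H ^ 2 / √(H * X)))).card : ℝ) ^ 2))
            = (C₁ * (N / c₀)) * (X * H ^ ε * (A.card : ℝ)) * ((q6P A (C₁ * (1 + H ^ 2 / √(H * X)))).card : ℝ) ^ 2 := by ring
          _ ≤ C * (X * H ^ ε * (A.card : ℝ)) * ((q6P A (C * (1 + H ^ 2 / √(H * X)))).card : ℝ) ^ 2 := by
              have hC0 : 0 ≤ C := by linarith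
              gcongr
          _ = _ := by ring

open Classical in
theorem m6_framesH {ε lam B c₁ b : ℝ} (hε : 0 < ε) (hl : 1 ≤ lam) (hB : 1 ≤ B) (hc₁ : 0 < c₁) (hb : 1 ≤ b) : ∃ C : ℝ, 1 ≤ C ∧
    ∀ (h : ℝ × ℝ → ℝ) (X H : ℝ) (A : Finset (ℤ × ℤ)), Hom c₁ b h → 1 ≤ X → 1 ≤ H → Cone H lam A →
    ∫⁻ f in UB B X, ENNReal.ofReal (m6 A (fun k => ee (h (vf f k)))) ≤ ENNReal.ofReal (C * X ^ 4 * H ^ ε * (A.card : ℝ) *
      (((A ×ˢ A).filter (fun z => |((dd z.1 z.2 : ℤ) : ℝ)| ≤ C * (1 + H ^ 2 / √(H * X)))).card : ℝ) ^ 2) := by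
  obtain ⟨L, hLd⟩ : ∃ L : ℝ, L = 2 * B ^ 3 := ⟨_, rfl⟩
  have hL : 1 ≤ L := by
    rw [hLd]
    have : 1 ≤ B ^ 3 := one_le_pow₀ hB
    linarith
  have hB0 : 0 < B := by linarith
  have hL0 : 0 < L := by linarith
  obtain ⟨C₁, hC₁, hT⟩ := q6_T (ε := ε) (lam := lam) (B := B) (L := L) (b := b) hε hl hB hL hc₁ hb
  obtain ⟨K, hK⟩ : ∃ K : ℝ, K = 2 * π * (2 * L * (2 * L * (8 * B ^ 3))) := ⟨_, rfl⟩
  have hK1 : 1 ≤ K := by
    have h1 : 1 ≤ B ^ 3 := one_le_pow₀ hB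
    have h2 : 3 < π := pi_gt_three
    have h3 : 1 ≤ L * (L * B ^ 3) := one_le_mul_of_one_le_of_one_le hL (one_le_mul_of_one_le_of_one_le hL h1)
    have h4 : K = 64 * π * (L * (L * B ^ 3)) := by rw [hK]; ring
    rw [h4]
    nlinarith
  have hCK : C₁ ≤ K * C₁ := by nlinarith
  refine ⟨K * C₁, hC₁.trans hCK, ?_⟩
  intro h X H A hh hX hH hA
  change _ ≤ ENNReal.ofReal (K * C₁ * X ^ 4 * H ^ ε * (A.card : ℝ) * ((q6P A (K * C₁ * (1 + H ^ 2 / √(H * X)))).card : ℝ) ^ 2)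
  have hX0 : 0 < X := by linarith
  have hH0 : 0 < H := by linarith
  obtain ⟨Q, hQ⟩ : ∃ Q : ℝ, Q = C₁ * X * H ^ ε * (A.card : ℝ) * ((q6P A (C₁ * (1 + H ^ 2 / √(H * X)))).card : ℝ) ^ 2 := ⟨_, rfl⟩
  have hQ0 : 0 ≤ Q := by rw [hQ]; positivity
  obtain ⟨F, hF⟩ : ∃ F : Fr → ENNReal, F = fun f => ENNReal.ofReal (m6 A (fun k => ee (h (vf f k)))) := ⟨_, rfl⟩
  have hFm : Measurable F := by
    rw [hF]
    refine ENNReal.measurable_ofReal.comp (Continuous.measurable ?_)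
    refine q6_cont A (fun (f : Fr) k => ee (h (vf f k))) fun k _ => ee_cont.comp ?_
    refine hh.cont.comp ?_
    unfold vf
    fun_prop
  have hIm : Measurable ((UB B X).indicator F) := hFm.indicator (q6_UB B X)
  have e0 : ∫⁻ f in UB B X, ENNReal.ofReal (m6 A (fun k => ee (h (vf f k)))) = ∫⁻ f, (UB B X).indicator F f := by
    rw [lintegral_indicator (q6_UB B X), hF]
  rw [e0, Pool.Agent.Helper60.LT.int_fr hIm]
  -- the integrand in coordinates
  obtain ⟨E, hE⟩ : ∃ E : ℝ → ℝ → ℝ → ℝ → ENNReal, ∀ θ y T x, E θ y T x = ENNReal.ofReal (m6 A (fun k => 1 * ee (T * (Pool.Agent.Helper78.CG.ff 0 (q6q h θ x y) k)))) :=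
    ⟨_, fun _ _ _ _ => rfl⟩
  have hEm : ∀ θ y, Measurable (Function.uncurry (E θ y)) := by
    intro θ y
    have h1 : Function.uncurry (E θ y) = fun p : ℝ × ℝ => ENNReal.ofReal (m6 A (fun k => 1 * ee (p.1 * (Pool.Agent.Helper78.CG.ff 0 (q6q h θ p.2 y) k)))) := by
      funext p
      exact hE θ y p.1 p.2
    rw [h1]
    refine ENNReal.measurable_ofReal.comp (Continuous.measurable ?_)
    refine q6_cont A (fun (p : ℝ × ℝ) k => 1 * ee (p.1 * (Pool.Agent.Helper78.CG.ff 0 (q6q h θ p.2 y) k))) fun k _ =>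
      continuous_const.mul (ee_cont.comp ?_)
    unfold Pool.Agent.Helper78.CG.ff q6q
    refine continuous_fst.mul (continuous_const.mul (hh.cont.comp ?_))
    fun_prop
  have hFE : ∀ θ y T x : ℝ, 0 < T → F (fr θ y T x) = E θ y T x := by
    intro θ y T x hT0
    rw [hF, hE]
    simp only
    congr 1
    refine Pool.Agent.Helper92.GC.m6_congr fun k hk => ?_
    have hk0 : 0 < (k.1 : ℝ) := lt_of_lt_of_le (by positivity) (hA k hk).1
    rw [q6_nm hh hT0 hk0, one_mul]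
    rfl
  have hin : ∀ θ y : ℝ, ∫⁻ T in Ioi (0 : ℝ), ∫⁻ x, ENNReal.ofReal (T ^ 3) * (UB B X).indicator F (fr θ y T x) ≤
      (Icc (-L) L).indicator (fun _ => ENNReal.ofReal (2 * L * ((2 * B * X) ^ 3 * Q))) y := by
    intro θ y
    by_cases hy : |y| ≤ L ∧ 1 ≤ L * |y|
    · have hyI : y ∈ Icc (-L) L := abs_le.1 hy.1
      rw [indicator_of_mem hyI]
      have s1 : ∫⁻ T in Ioi (0 : ℝ), ∫⁻ x, ENNReal.ofReal (T ^ 3) * (UB B X).indicator F (fr θ y T x) ≤
          ∫⁻ T in Ioc (0 : ℝ) (2 * B * X), ∫⁻ x in Icc (-L) L, ENNReal.ofReal ((2 * B * X) ^ 3) * E θ y T x := by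
        rw [← lintegral_indicator measurableSet_Ioi, ← lintegral_indicator measurableSet_Ioc]
        refine lintegral_mono fun T => ?_
        by_cases hT0 : T ∈ Ioi (0 : ℝ)
        · rw [indicator_of_mem hT0]
          have hT0' : 0 < T := hT0
          by_cases hT1 : T ≤ 2 * B * X
          · have hT2 : T ∈ Ioc (0 : ℝ) (2 * B * X) := ⟨hT0', hT1⟩
            rw [indicator_of_mem hT2, ← lintegral_indicator measurableSet_Icc]
            refine lintegral_mono fun x => ?_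
            by_cases hf : fr θ y T x ∈ UB B X
            · obtain ⟨-, hx, -, -⟩ := q6_UB_fr hB hX0 hT0' hf
              rw [← hLd] at hx
              have hxI : x ∈ Icc (-L) L := abs_le.1 hx
              rw [indicator_of_mem hf, indicator_of_mem hxI, hFE θ y T x hT0']
              refine mul_le_mul_left ?_ _
              exact ENNReal.ofReal_le_ofReal (pow_le_pow_left₀ hT0'.le hT1 3)
            · rw [indicator_of_notMem hf, mul_zero]
              exact zero_le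
          · have h1 : ∀ x, ENNReal.ofReal (T ^ 3) * (UB B X).indicator F (fr θ y T x) = 0 := by
              intro x
              have hf : fr θ y T x ∉ UB B X := fun hf => hT1 (q6_UB_fr hB hX0 hT0' hf).1
              rw [indicator_of_notMem hf, mul_zero]
            simp only [h1, lintegral_zero]
            exact zero_le
        · rw [indicator_of_notMem hT0]
          exact zero_le
      have s2 : ∫⁻ T in Ioc (0 : ℝ) (2 * B * X), ∫⁻ x in Icc (-L) L, ENNReal.ofReal ((2 * B * X) ^ 3) * E θ y T x =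
          ∫⁻ x in Icc (-L) L, ∫⁻ T in Ioc (0 : ℝ) (2 * B * X), ENNReal.ofReal ((2 * B * X) ^ 3) * E θ y T x := by
        refine lintegral_lintegral_swap ?_
        exact ((measurable_const.mul (hEm θ y))).aemeasurable
      rw [s2] at s1
      refine s1.trans ?_
      have s3 : ∀ x ∈ Icc (-L) L, ∫⁻ T in Ioc (0 : ℝ) (2 * B * X), ENNReal.ofReal ((2 * B * X) ^ 3) * E θ y T x ≤
          ENNReal.ofReal ((2 * B * X) ^ 3 * Q) := by
        intro x hx
        have hm : Measurable (fun T => E θ y T x) := (hEm θ y).comp (measurable_id.prodMk measurable_const)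
        rw [lintegral_const_mul _ hm, ENNReal.ofReal_mul (by positivity)]
        refine mul_le_mul_right ?_ _
        rw [hQ]
        simp only [hE]
        exact hT h X H A θ x y hh hX hH hA (abs_le.2 hx) hy.1 hy.2
      refine (setLIntegral_mono' measurableSet_Icc s3).trans ?_
      rw [setLIntegral_const, Real.volume_Icc, mul_comm, ← ENNReal.ofReal_mul (by linarith)]
      refine ENNReal.ofReal_le_ofReal (le_of_eq ?_)
      ring
    · have h1 : ∀ T ∈ Ioi (0 : ℝ), ∫⁻ x, ENNReal.ofReal (T ^ 3) * (UB B X).indicator F (fr θ y T x) = 0 := by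
        intro T hT0
        have h2 : ∀ x, ENNReal.ofReal (T ^ 3) * (UB B X).indicator F (fr θ y T x) = 0 := by
          intro x
          have hf : fr θ y T x ∉ UB B X := by
            intro hf
            obtain ⟨-, -, g1, g2⟩ := q6_UB_fr hB hX0 hT0 hf
            rw [← hLd] at g1 g2
            exact hy ⟨g1, g2⟩
          rw [indicator_of_notMem hf, mul_zero]
        simp only [h2, lintegral_zero]
      rw [setLIntegral_congr_fun measurableSet_Ioi h1, lintegral_zero]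
      exact zero_le
  calc ∫⁻ θ in Ioc (-π) π, ∫⁻ y, ∫⁻ T in Ioi (0 : ℝ), ∫⁻ x, ENNReal.ofReal (T ^ 3) * (UB B X).indicator F (fr θ y T x)
      ≤ ∫⁻ _ in Ioc (-π) π, ENNReal.ofReal (2 * L * (2 * L * ((2 * B * X) ^ 3 * Q))) := by
        refine lintegral_mono fun θ => ?_
        refine (lintegral_mono (hin θ)).trans ?_
        rw [lintegral_indicator measurableSet_Icc, setLIntegral_const, Real.volume_Icc, mul_comm, ← ENNReal.ofReal_mul (by linarith)]
        refine ENNReal.ofReal_le_ofReal (le_of_eq ?_)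
        ring
    _ = ENNReal.ofReal (K * (X ^ 3 * Q)) := by
        rw [setLIntegral_const, Real.volume_Ioc, mul_comm, ← ENNReal.ofReal_mul (by linarith [pi_pos]), hK]
        congr 1
        ring
    _ ≤ _ := by
        refine ENNReal.ofReal_le_ofReal ?_
        have h1 : ((q6P A (C₁ * (1 + H ^ 2 / √(H * X)))).card : ℝ) ≤ ((q6P A (K * C₁ * (1 + H ^ 2 / √(H * X)))).card : ℝ) :=
          q6P_mono (mul_le_mul_of_nonneg_right hCK (by positivity))
        rw [hQ]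
        calc K * (X ^ 3 * (C₁ * X * H ^ ε * (A.card : ℝ) * ((q6P A (C₁ * (1 + H ^ 2 / √(H * X)))).card : ℝ) ^ 2))
            = K * C₁ * X ^ 4 * H ^ ε * (A.card : ℝ) * ((q6P A (C₁ * (1 + H ^ 2 / √(H * X)))).card : ℝ) ^ 2 := by ring
          _ ≤ _ := by
            have hK0 : 0 < K := by linarith
            have hC0 : 0 < C₁ := by linarith
            gcongr

end Pool.Agent.Helper60.AC
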