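import Pool.Agent.Helper3.AC.Defs
import Pool.Agent.Helper60.AC.M6

/-!
# Project AC, block M: the sixth moment over the frames of size `X` with positive determinant
-/

open MeasureTheory Real Set Filter Topology

set_option autoImplicit false

namespace Pool.Agent.Helper60.AC

open Pool.Agent.Helper22.AE
open Pool.Agent.Helper92.GC (dt tp Tq uu tt arc dd m6)
open Pool.Agent.Helper60.LT (Fr Tf xf yf df vf fr sl Cv Hom)
open Pool.Agent.Helper60.QL (Cone)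
open Pool.Agent.Helper3.AC (UP)

open Classical in
theorem m6_frames {ε lam c₁ B₀ B : ℝ} (hε : 0 < ε) (hl : 1 ≤ lam) (hc : 0 < c₁) (hB₀ : 1 ≤ B₀) (hB : 1 ≤ B) : ∃ C : ℝ, 1 ≤ C ∧
    ∀ h : ℝ × ℝ → ℝ, Hom c₁ B₀ h → ∀ (X H : ℝ) (A : Finset (ℤ × ℤ)), 1 ≤ X → 1 ≤ H → Cone H lam A →
    ∫⁻ f in UP B X, ENNReal.ofReal (m6 A (fun k => ee (h (vf f k)))) ≤ ENNReal.ofReal (C * X ^ 4 * H ^ ε * (A.card : ℝ) *
      (((A ×ˢ A).filter (fun z => |((dd z.1 z.2 : ℤ) : ℝ)| ≤ C * (1 + H ^ 2 / √(H * X)))).card : ℝ) ^ 2) := by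
  obtain ⟨C, hC, h6⟩ := m6_framesH (ε := ε) (lam := lam) (B := B) (c₁ := c₁) (b := B₀) hε hl hB hc hB₀
  refine ⟨C, hC, fun h hh X H A hX hH hA => le_trans (lintegral_mono_set ?_) (h6 h X H A hh hX hH hA)⟩
  intro f hf
  refine ⟨hf.1, hf.2.1, hf.2.2.1, hf.2.2.2.1, hf.2.2.2.2.trans ?_⟩
  exact mul_le_mul_of_nonneg_left (le_abs_self _) (by linarith)

end Pool.Agent.Helper60.AC
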