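import Pool.Agent.Helper49.QL.S2m
import Pool.Agent.Helper79.QL.M6
import Pool.Agent.Helper60.AC.Fr

/-!
# Project AC, block T: the count in the cone, uniformly in the phase
-/

open MeasureTheory Real Set Filter Topology

set_option autoImplicit false

namespace Pool.Agent.Helper3.AC

open Pool.Agent.Helper22.AE
open Pool.Agent.Helper92.GC (dt tp Tq uu tt arc dd m6)
open Pool.Agent.Helper75.TW (m20)
open Pool.Agent.Helper60.LT (Fr Tf xf yf df vf fr sl Cv Hom)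
open Pool.Agent.Helper60.QL (Cone one_sector sector_sum final_real sum_sectors ten_pow)

open Classical in
theorem mom_cone_of {P₀ : (ℝ × ℝ → ℝ) → Prop} {ε B : ℝ} (hε : 0 < ε) (hB : 1 ≤ B)
    (hiter : ∀ η : ℝ, 0 < η → ∃ (M : ℕ) (C B' : ℝ), 2 ≤ M ∧ 1 ≤ C ∧ B ≤ B' ∧
      ∀ h : ℝ × ℝ → ℝ, P₀ h → ∀ (X H : ℝ) (S : Finset (ℤ × ℤ)), 1 ≤ X → 1 ≤ H → H ≤ X → Cone H 2 S →
      ∃ m : ℕ, X * H ≤ C * X ^ η * (M : ℝ) ^ (4 * m) ∧ (M : ℝ) ^ (4 * m) ≤ X * H ∧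
        IH h B X S ^ (1 / 10 : ℝ) ≤ ENNReal.ofReal (C * X ^ η) *
          ∑ r ∈ Finset.range (M ^ m), (IH h B' X (arc 0 S (M ^ m) r) + 1) ^ (1 / 10 : ℝ))
    (hm6 : ∀ ε B : ℝ, 0 < ε → 1 ≤ B → ∃ C : ℝ, 1 ≤ C ∧ ∀ h : ℝ × ℝ → ℝ, P₀ h → ∀ (X H : ℝ) (A : Finset (ℤ × ℤ)), 1 ≤ X → 1 ≤ H → Cone H 2 A →
      ∫⁻ f in UP B X, ENNReal.ofReal (m6 A (fun k => ee (h (vf f k)))) ≤ ENNReal.ofReal (C * X ^ 4 * H ^ ε * (A.card : ℝ) *
      (((A ×ˢ A).filter (fun z => |((dd z.1 z.2 : ℤ) : ℝ)| ≤ C * (1 + H ^ 2 / √(H * X)))).card : ℝ) ^ 2))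
    (hm20 : ∀ (A : Finset (ℤ × ℤ)) (a : ℤ × ℤ → ℂ), (∀ k, ‖a k‖ ≤ 1) → m20 A a ≤ (A.card : ℝ) ^ 14 * m6 A a) :
    ∃ C : ℝ, 1 ≤ C ∧ ∀ h : ℝ × ℝ → ℝ, P₀ h → ∀ (X H : ℝ) (S : Finset (ℤ × ℤ)), 1 ≤ X → 1 ≤ H → H ^ 3 ≤ X → Cone H 2 S →
      IH h B X S ≤ ENNReal.ofReal (C * X ^ (4 + ε) * (H ^ 20 + H ^ 34 * (X * H) ^ (-(7 / 4) : ℝ))) := by
  set η : ℝ := ε / 40 with hηd
  have hη : 0 < η := by positivity
  have hηε : 40 * η = ε := by rw [hηd]; ring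
  obtain ⟨M, C₀, B', hM, hC₀, hBB, hit⟩ := hiter η hη
  obtain ⟨C₁, hC₁, h6⟩ := hm6 η B' hη (hB.trans hBB)
  obtain ⟨C₂, hC₂, hsec⟩ := sector_sum hC₁
  set C₃ : ℝ := 1 + 1 / η with hC₃d
  have hC₃ : 1 ≤ C₃ := by
    have : 0 < 1 / η := by positivity
    linarith
  refine ⟨(2 * C₀ ^ 2 * C₁ * C₂ * C₃) ^ 10 * 2 ^ 6, ?_, ?_⟩
  · have d0 : 1 ≤ C₀ ^ 2 := one_le_pow₀ hC₀
    have d1 : 1 ≤ 2 * C₀ ^ 2 := by linarith
    have d2 : 1 ≤ 2 * C₀ ^ 2 * C₁ := by nlinarith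
    have d3 : 1 ≤ 2 * C₀ ^ 2 * C₁ * C₂ := by nlinarith
    have d4 : 1 ≤ 2 * C₀ ^ 2 * C₁ * C₂ * C₃ := by nlinarith
    have d5 : 1 ≤ (2 * C₀ ^ 2 * C₁ * C₂ * C₃) ^ 10 := one_le_pow₀ d4
    nlinarith
  intro h hh X H S hX hH hHX3 hS
  have hX0 : 0 < X := by linarith
  have hH0 : 0 < H := by linarith
  have hHX : H ≤ X := by
    refine le_trans ?_ hHX3
    calc H = H ^ 1 := (pow_one H).symm
      _ ≤ H ^ 3 := pow_le_pow_right₀ hH (by norm_num)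
  obtain ⟨m, hm1, hm2, hm3⟩ := hit h hh X H S hX hH hHX hS
  have hXη : 1 ≤ X ^ η := Real.one_le_rpow hX hη.le
  set N : ℕ := M ^ m with hN
  have hN1 : 1 ≤ N := Nat.one_le_pow _ _ (by omega)
  have hN0 : (0 : ℝ) < N := by exact_mod_cast hN1
  have hN4 : (M : ℝ) ^ (4 * m) = (N : ℝ) ^ 4 := by rw [hN]; push_cast; rw [← pow_mul]; ring_nf
  rw [hN4] at hm1 hm2
  -- the number of sectors
  have hNle : (N : ℝ) ≤ (X * H) ^ (1 / 4 : ℝ) := by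
    have : ((N : ℝ) ^ 4) ^ (1 / 4 : ℝ) = N := by
      rw [← Real.rpow_natCast, ← Real.rpow_mul hN0.le]; norm_num
    rw [← this]
    exact Real.rpow_le_rpow (by positivity) hm2 (by norm_num)
  set G : ℝ := H ^ 2 * (X * H) ^ (-(1 / 4) : ℝ) with hG
  have hHN : 1 + H ^ 2 / N ≤ C₀ * X ^ η * (1 + G) := by
    have hCX : 1 ≤ C₀ * X ^ η := by nlinarith
    have g1 : (X * H) ^ (1 / 4 : ℝ) ≤ C₀ * X ^ η * N := by
      calc (X * H) ^ (1 / 4 : ℝ) ≤ (C₀ * X ^ η * (N : ℝ) ^ 4) ^ (1 / 4 : ℝ) := Real.rpow_le_rpow (by positivity) hm1 (by norm_num)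
        _ = (C₀ * X ^ η) ^ (1 / 4 : ℝ) * N := by
            rw [Real.mul_rpow (by positivity) (by positivity)]
            congr 1
            rw [← Real.rpow_natCast, ← Real.rpow_mul hN0.le]; norm_num
        _ ≤ C₀ * X ^ η * N := by
            have : (C₀ * X ^ η) ^ (1 / 4 : ℝ) ≤ C₀ * X ^ η := by
              calc (C₀ * X ^ η) ^ (1 / 4 : ℝ) ≤ (C₀ * X ^ η) ^ (1 : ℝ) := Real.rpow_le_rpow_of_exponent_le hCX (by norm_num)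
                _ = _ := Real.rpow_one _
            gcongr
    have g2 : (X * H) ^ (-(1 / 4) : ℝ) = ((X * H) ^ (1 / 4 : ℝ))⁻¹ := Real.rpow_neg (by positivity) _
    have g3 : H ^ 2 / N ≤ C₀ * X ^ η * G := by
      rw [hG, g2, div_le_iff₀ hN0]
      have g4 : 0 < (X * H) ^ (1 / 4 : ℝ) := by positivity
      calc H ^ 2 = H ^ 2 * ((X * H) ^ (1 / 4 : ℝ))⁻¹ * (X * H) ^ (1 / 4 : ℝ) := by
            field_simp
        _ ≤ H ^ 2 * ((X * H) ^ (1 / 4 : ℝ))⁻¹ * (C₀ * X ^ η * N) := by gcongr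
        _ = C₀ * X ^ η * (H ^ 2 * ((X * H) ^ (1 / 4 : ℝ))⁻¹) * N := by ring
    nlinarith
  have hlogH : 1 + log H ≤ C₃ * X ^ η := by
    have l1 := Real.log_le_rpow_div hH0.le hη
    have l2 : H ^ η ≤ X ^ η := Real.rpow_le_rpow hH0.le hHX hη.le
    have l3 : H ^ η / η ≤ X ^ η / η := by gcongr
    rw [hC₃d]
    have l4 : (1 + 1 / η) * X ^ η = X ^ η + X ^ η / η := by ring
    rw [l4]; linarith
  have hlog0 : 0 ≤ log H := Real.log_nonneg hH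
  -- each sector
  set P : ℕ → ℝ := fun r => (((arc 0 S N r ×ˢ arc 0 S N r).filter (fun z => |((dd z.1 z.2 : ℤ) : ℝ)| ≤
    C₁ * (1 + H ^ 2 / √(H * X)))).card : ℝ) with hP
  set K : ℝ := C₁ * X ^ 4 * H ^ η with hK
  have hK0 : 0 ≤ K := by positivity
  have hcone : ∀ r, Cone H 2 (arc 0 S N r) := by
    intro r k hk
    unfold arc at hk
    exact hS k (Finset.mem_filter.1 hk).1
  have hsecr : ∀ r, IH h B' X (arc 0 S N r) ^ (1 / 10 : ℝ) ≤ ENNReal.ofReal (K ^ (1 / 10 : ℝ) *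
      ((((arc 0 S N r).card : ℝ) ^ 2) ^ (7 / 10 : ℝ) * ((arc 0 S N r).card : ℝ) ^ (1 / 10 : ℝ) * P r ^ (1 / 5 : ℝ))) := by
    intro r
    have i1 : IH h B' X (arc 0 S N r) ≤ ENNReal.ofReal (((arc 0 S N r).card : ℝ) ^ 14) *
        ∫⁻ f in UP B' X, ENNReal.ofReal (m6 (arc 0 S N r) (fun k => ee (h (vf f k)))) := by
      unfold IH
      rw [← lintegral_const_mul' _ _ ENNReal.ofReal_ne_top]
      apply lintegral_mono
      intro f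
      simp only
      rw [← ENNReal.ofReal_mul (by positivity)]
      apply ENNReal.ofReal_le_ofReal
      exact hm20 _ _ (fun k => (ee_norm _).le)
    have i2 := h6 h hh X H (arc 0 S N r) hX hH (hcone r)
    have i3 : IH h B' X (arc 0 S N r) ≤ ENNReal.ofReal (((arc 0 S N r).card : ℝ) ^ 14 * (K * ((arc 0 S N r).card : ℝ) * P r ^ 2)) := by
      rw [ENNReal.ofReal_mul (by positivity)]
      refine i1.trans ?_
      gcongr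
    rw [← one_sector hK0 (by positivity) (by rw [hP]; positivity), ← ENNReal.ofReal_rpow_of_nonneg (by rw [hP]; positivity) (by norm_num)]
    exact ENNReal.rpow_le_rpow i3 (by norm_num)
  have hsum := hsec X H N S hX hH hHX3 hN1 hS P (fun r => by rw [hP]; positivity)
    (fun r => ⟨C₁ * (1 + H ^ 2 / √(H * X)), le_rfl, by positivity, le_of_eq (by rw [hP])⟩)
  have htot : ∑ r ∈ Finset.range N, (IH h B' X (arc 0 S N r) + 1) ^ (1 / 10 : ℝ) ≤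
      ENNReal.ofReal (K ^ (1 / 10 : ℝ) * (C₂ * (H ^ 2 * (C₃ * X ^ η)) * (C₀ * X ^ η * (1 + G)) ^ (7 / 10 : ℝ)) +
      (X * H) ^ (1 / 4 : ℝ)) := by
    have hs2 : ∑ r ∈ Finset.range N,
      ((((arc 0 S N r).card : ℝ) ^ 2) ^ (7 / 10 : ℝ) * ((arc 0 S N r).card : ℝ) ^ (1 / 10 : ℝ) * P r ^ (1 / 5 : ℝ)) ≤
            C₂ * (H ^ 2 * (C₃ * X ^ η)) * (C₀ * X ^ η * (1 + G)) ^ (7 / 10 : ℝ) := by
      refine hsum.trans ?_
      gcongr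
    refine (sum_sectors N _ (fun r => by rw [hP]; positivity) _ (by positivity) hsecr hs2).trans ?_
    apply ENNReal.ofReal_le_ofReal
    linarith
  -- end
  have hII : IH h B X S ^ (1 / 10 : ℝ) ≤ ENNReal.ofReal (C₀ * X ^ η * (K ^ (1 / 10 : ℝ) *
      (C₂ * (H ^ 2 * (C₃ * X ^ η)) * (C₀ * X ^ η * (1 + G)) ^ (7 / 10 : ℝ)) + (X * H) ^ (1 / 4 : ℝ))) := by
    rw [ENNReal.ofReal_mul (by positivity)]
    refine hm3.trans ?_
    gcongr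
  have hfin := final_real (X := X) (H := H) (G := G) hηε hη hX hH hHX hG hC₀ hC₁ hC₂ hC₃
  rw [← hK] at hfin
  have hR0 : 0 ≤ C₀ * X ^ η * (K ^ (1 / 10 : ℝ) *
      (C₂ * (H ^ 2 * (C₃ * X ^ η)) * (C₀ * X ^ η * (1 + G)) ^ (7 / 10 : ℝ)) + (X * H) ^ (1 / 4 : ℝ)) := by positivity
  generalize C₀ * X ^ η * (K ^ (1 / 10 : ℝ) *
      (C₂ * (H ^ 2 * (C₃ * X ^ η)) * (C₀ * X ^ η * (1 + G)) ^ (7 / 10 : ℝ)) + (X * H) ^ (1 / 4 : ℝ)) = R at hII hfin hR0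
  exact ten_pow hR0 hII hfin

end Pool.Agent.Helper3.AC
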