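import Pool.Agent.Helper65.QL.S2
import Pool.Agent.Helper60.AC.T1

/-!
# Project AC, block T: from the cone to the square annulus (the four rotations), from frames of size `X` to a compact set of frames
-/

open MeasureTheory Real Set Filter Topology

set_option autoImplicit false

namespace Pool.Agent.Helper3.AC

open Pool.Agent.Helper22.AE
open Pool.Agent.Helper92.GC (dt tp Tq uu tt arc dd sqa tp_cont)
open Pool.Agent.Helper75.TW
open Pool.Agent.Helper60.LT (Fr Tf xf yf df vf fr sl Cv Hom)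
open Pool.Agent.Helper22.LP (fv fk fdet)
open Pool.Agent.Helper60.QL (Cone m20_image m20_split vf_cont F20q)

/-- the twentieth moment of a frame -/
noncomputable def fh (h : ℝ × ℝ → ℝ) (S : Finset (ℤ × ℤ)) (f : Fr) : ENNReal := ENNReal.ofReal (m20 S (fun k => ee (h (vf f k))))

theorem fh_meas {h : ℝ × ℝ → ℝ} (hc : Continuous h) (S : Finset (ℤ × ℤ)) : Measurable (fh h S) := by
  unfold fh
  refine ENNReal.measurable_ofReal.comp (Continuous.measurable ?_)
  exact m20_cont_coef S (fun (f : Fr) k => ee (h (vf f k))) fun k _ => ee_cont.comp (hc.comp (vf_cont k))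

theorem IH_fh (h : ℝ × ℝ → ℝ) (B X : ℝ) (S : Finset (ℤ × ℤ)) : IH h B X S = ∫⁻ f in UP B X, fh h S f := rfl

theorem IH_split {h : ℝ × ℝ → ℝ} (hc : Continuous h) (B X : ℝ) (S : Finset (ℤ × ℤ)) (p : ℤ × ℤ → Prop) [DecidablePred p] :
    IH h B X S ≤ ENNReal.ofReal (2 ^ 19) * (IH h B X (S.filter p) + IH h B X (S.filter fun k => ¬ p k)) := by
  rw [IH_fh, IH_fh, IH_fh]
  have hm : Measurable fun f => fh h (S.filter p) f + fh h (S.filter fun k => ¬ p k) f := (fh_meas hc _).add (fh_meas hc _)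
  rw [← lintegral_add_left (fh_meas hc _), ← lintegral_const_mul _ hm]
  refine lintegral_mono fun f => ?_
  unfold fh
  rw [← ENNReal.ofReal_add (m20_nonneg _ _) (m20_nonneg _ _), ← ENNReal.ofReal_mul (by norm_num)]
  exact ENNReal.ofReal_le_ofReal (m20_split S p _)

/-- the rotation of the frequencies -/
def rt (k : ℤ × ℤ) : ℤ × ℤ := (-k.2, k.1)

theorem rt_inj : Function.Injective rt := by
  intro k l h
  unfold rt at h
  have h1 := congrArg Prod.fst h
  have h2 := congrArg Prod.snd h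
  simp only at h1 h2
  exact Prod.ext h2 (neg_injective h1)

/-- the rotation of the frames -/
def rf (f : Fr) : Fr := (f.2, -f.1)

theorem rf_mp : MeasurePreserving rf (volume : Measure Fr) (volume : Measure Fr) := by
  have h1 : MeasurePreserving (Prod.swap : Fr → Fr) (volume : Measure Fr) (volume : Measure Fr) := Measure.measurePreserving_swap
  have h2 : MeasurePreserving (Neg.neg : ℝ × ℝ → ℝ × ℝ) volume volume := Measure.measurePreserving_neg volume
  have h3 : MeasurePreserving (Prod.map id (Neg.neg : ℝ × ℝ → ℝ × ℝ)) (volume : Measure Fr) (volume : Measure Fr) :=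
    (MeasurePreserving.id (volume : Measure (ℝ × ℝ))).prod h2
  exact h3.comp h1

theorem rf_UP (B X : ℝ) (f : Fr) : rf f ∈ UP B X ↔ f ∈ UP B X := by
  have e : df (rf f) = df f := by
    unfold df rf
    simp only [Prod.fst_neg, Prod.snd_neg]
    ring
  unfold UP
  simp only [mem_ofPred_eq]
  rw [e]
  unfold rf
  simp only [Prod.fst_neg, Prod.snd_neg, abs_neg]
  tauto

theorem UP_closed (B X : ℝ) : IsClosed (UP B X) := by
  have h11 : Continuous fun f : Fr => f.1.1 := by fun_prop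
  have h12 : Continuous fun f : Fr => f.1.2 := by fun_prop
  have h21 : Continuous fun f : Fr => f.2.1 := by fun_prop
  have h22 : Continuous fun f : Fr => f.2.2 := by fun_prop
  have hd : Continuous fun f : Fr => df f := by
    unfold df
    fun_prop
  have e : UP B X = {f : Fr | |f.1.1| ≤ B * X} ∩ ({f : Fr | |f.1.2| ≤ B * X} ∩ ({f : Fr | |f.2.1| ≤ B * X} ∩ ({f : Fr | |f.2.2| ≤ B * X} ∩
      {f : Fr | X ^ 2 ≤ B * df f}))) := by
    ext f
    rfl
  rw [e]
  exact (isClosed_le h11.abs continuous_const).inter ((isClosed_le h12.abs continuous_const).inter ((isClosed_le h21.abs continuous_const).inter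
    ((isClosed_le h22.abs continuous_const).inter (isClosed_le continuous_const (continuous_const.mul hd)))))

theorem IH_rt {h : ℝ × ℝ → ℝ} (hc : Continuous h) (B X : ℝ) (S : Finset (ℤ × ℤ)) : IH h B X (S.image rt) = IH h B X S := by
  have h1 : ∀ f : Fr, fh h (S.image rt) f = fh h S (rf f) := by
    intro f
    unfold fh
    rw [m20_image rt (fun k l => by
      unfold rt
      exact Prod.ext (by simp only [Prod.fst_add, Prod.snd_add]; ring) (by simp only [Prod.fst_add, Prod.snd_add])) rt_inj]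
    congr 2
    funext k
    congr 2
    unfold vf rf rt
    simp only [Prod.fst_neg, Prod.snd_neg]
    push_cast
    refine Prod.ext ?_ ?_ <;> dsimp only <;> ring
  have hm : MeasurableSet (UP B X) := (UP_closed B X).measurableSet
  rw [IH_fh, IH_fh, ← lintegral_indicator hm, ← lintegral_indicator hm]
  have h2 : ∀ f : Fr, (UP B X).indicator (fh h (S.image rt)) f = (UP B X).indicator (fh h S) (rf f) := by
    intro f
    by_cases hf : f ∈ UP B X
    · rw [indicator_of_mem hf, indicator_of_mem ((rf_UP B X f).2 hf), h1]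
    · rw [indicator_of_notMem hf, indicator_of_notMem (fun h => hf ((rf_UP B X f).1 h))]
  rw [lintegral_congr h2]
  exact rf_mp.lintegral_comp ((fh_meas hc S).indicator hm)

/-- the bound of the cone gives the bound of the square annulus -/
theorem IH_sqa {h : ℝ × ℝ → ℝ} (hc : Continuous h) {B X : ℝ} {N : ℕ} (hN : 1 ≤ N) {Z : ENNReal} (hZ : ∀ S : Finset (ℤ × ℤ), Cone N 2 S → IH h B X S ≤ Z) :
    IH h B X (sqa N) ≤ ENNReal.ofReal (2 ^ 59) * Z := by
  classical
  obtain ⟨S, hS⟩ : ∃ S : Finset (ℤ × ℤ), S = sqa N := ⟨_, rfl⟩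
  have hmem : ∀ k ∈ S, ((N : ℤ) ≤ |k.1| ∨ (N : ℤ) ≤ |k.2|) ∧ |k.1| < 2 * N ∧ |k.2| < 2 * N := by
    intro k hk
    rw [hS] at hk
    unfold sqa at hk
    exact (Finset.mem_filter.1 hk).2
  have hN0 : (0 : ℝ) < N := by exact_mod_cast hN
  -- the cone
  have hcone : ∀ T : Finset (ℤ × ℤ), (∀ k ∈ T, (N : ℤ) ≤ k.1 ∧ k.1 < 2 * N ∧ |k.2| ≤ k.1) → Cone N 2 T := by
    intro T hT k hk
    obtain ⟨h1, h2, h3⟩ := hT k hk
    have h1' : (N : ℝ) ≤ k.1 := by exact_mod_cast h1
    have h2' : (k.1 : ℝ) < 2 * N := by exact_mod_cast h2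
    have h3' : |(k.2 : ℝ)| ≤ k.1 := by exact_mod_cast h3
    refine ⟨by linarith, h2'.le, by linarith⟩
  rw [← hS]
  -- the three splittings
  have s1 := IH_split hc B X S (fun k => |k.2| ≤ |k.1|)
  have s2 := IH_split hc B X (S.filter fun k => |k.2| ≤ |k.1|) (fun k => 0 ≤ k.1)
  have s3 := IH_split hc B X (S.filter fun k => ¬ |k.2| ≤ |k.1|) (fun k => 0 ≤ k.2)
  have b1 : IH h B X ((S.filter fun k => |k.2| ≤ |k.1|).filter fun k => 0 ≤ k.1) ≤ Z := by
    refine hZ _ (hcone _ fun k hk => ?_)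
    rw [Finset.mem_filter, Finset.mem_filter] at hk
    obtain ⟨⟨h1, h2⟩, h3⟩ := hk
    obtain ⟨h4, h5, h6⟩ := hmem k h1
    rw [abs_of_nonneg h3] at h2 h4 h5
    refine ⟨?_, h5, h2⟩
    rcases h4 with h4 | h4
    · exact h4
    · exact h4.trans h2
  have b2 : IH h B X ((S.filter fun k => |k.2| ≤ |k.1|).filter fun k => ¬ 0 ≤ k.1) ≤ Z := by
    rw [← IH_rt hc, ← IH_rt hc]
    refine hZ _ (hcone _ fun k hk => ?_)
    rw [Finset.mem_image] at hk
    obtain ⟨l', hl', rfl⟩ := hk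
    rw [Finset.mem_image] at hl'
    obtain ⟨l, hl, rfl⟩ := hl'
    rw [Finset.mem_filter, Finset.mem_filter] at hl
    obtain ⟨⟨h1, h2⟩, h3⟩ := hl
    obtain ⟨h4, h5, h6⟩ := hmem l h1
    push Not at h3
    rw [abs_of_neg h3] at h2 h4 h5
    unfold rt
    simp only [abs_neg]
    refine ⟨?_, h5, h2⟩
    rcases h4 with h4 | h4
    · exact h4
    · exact h4.trans h2
  have b3 : IH h B X ((S.filter fun k => ¬ |k.2| ≤ |k.1|).filter fun k => 0 ≤ k.2) ≤ Z := by
    rw [← IH_rt hc, ← IH_rt hc, ← IH_rt hc]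
    refine hZ _ (hcone _ fun k hk => ?_)
    rw [Finset.mem_image] at hk
    obtain ⟨l'', hl'', rfl⟩ := hk
    rw [Finset.mem_image] at hl''
    obtain ⟨l', hl', rfl⟩ := hl''
    rw [Finset.mem_image] at hl'
    obtain ⟨l, hl, rfl⟩ := hl'
    rw [Finset.mem_filter, Finset.mem_filter] at hl
    obtain ⟨⟨h1, h2⟩, h3⟩ := hl
    obtain ⟨h4, h5, h6⟩ := hmem l h1
    push Not at h2
    rw [abs_of_nonneg h3] at h2 h4 h6
    unfold rt
    simp only [abs_neg, neg_neg]
    refine ⟨?_, h6, h2.le⟩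
    rcases h4 with h4 | h4
    · exact h4.trans h2.le
    · exact h4
  have b4 : IH h B X ((S.filter fun k => ¬ |k.2| ≤ |k.1|).filter fun k => ¬ 0 ≤ k.2) ≤ Z := by
    rw [← IH_rt hc]
    refine hZ _ (hcone _ fun k hk => ?_)
    rw [Finset.mem_image] at hk
    obtain ⟨l, hl, rfl⟩ := hk
    rw [Finset.mem_filter, Finset.mem_filter] at hl
    obtain ⟨⟨h1, h2⟩, h3⟩ := hl
    obtain ⟨h4, h5, h6⟩ := hmem l h1
    push Not at h2 h3
    rw [abs_of_neg h3] at h2 h4 h6
    unfold rt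
    simp only
    refine ⟨?_, h6, h2.le⟩
    rcases h4 with h4 | h4
    · exact h4.trans h2.le
    · exact h4
  have e : ENNReal.ofReal (2 ^ 19) = 2 ^ 19 := by
    rw [ENNReal.ofReal_pow (by norm_num), ENNReal.ofReal_ofNat]
  have e' : ENNReal.ofReal (2 ^ 59) = 2 ^ 59 := by
    rw [ENNReal.ofReal_pow (by norm_num), ENNReal.ofReal_ofNat]
  rw [e] at s1 s2 s3
  rw [e']
  calc IH h B X S ≤ 2 ^ 19 * (IH h B X (S.filter fun k => |k.2| ≤ |k.1|) + IH h B X (S.filter fun k => ¬ |k.2| ≤ |k.1|)) := s1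
    _ ≤ 2 ^ 19 * (2 ^ 19 * (Z + Z) + 2 ^ 19 * (Z + Z)) := by
        refine mul_le_mul_right (add_le_add ?_ ?_) _
        · exact s2.trans (mul_le_mul_right (add_le_add b1 b2) _)
        · exact s3.trans (mul_le_mul_right (add_le_add b3 b4) _)
    _ = 2 ^ 40 * Z := by ring
    _ ≤ 2 ^ 59 * Z := by
        gcongr
        · norm_num
        · norm_num

theorem h_smul {c₁ b : ℝ} {h : ℝ × ℝ → ℝ} (hh : Hom c₁ b h) {r : ℝ} (hr : 0 < r) (f : Fr) (k : ℤ × ℤ) : r * h (fk f k) = h (vf (r • f) k) := by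
  rw [← hh.hom r _ hr]
  congr 1
  unfold fk fv vf
  simp only [Prod.smul_fst, Prod.smul_snd, smul_eq_mul]
  refine Prod.ext ?_ ?_ <;> dsimp only <;> ring

/-- the scaled frames of a compact set -/
theorem scale {h : ℝ × ℝ → ℝ} (hc : Continuous h) {B X r : ℝ} (hr : 0 < r) {U : Set Fr} (hU : ∀ f ∈ U, r • f ∈ UP B X) (S : Finset (ℤ × ℤ)) :
    ∫⁻ f in U, fh h S (r • f) ≤ ENNReal.ofReal ((r ^ 4)⁻¹) * IH h B X S := by
  have hm : MeasurableSet (UP B X) := (UP_closed B X).measurableSet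
  have h1 : ∫⁻ f in U, fh h S (r • f) ≤ ∫⁻ f : Fr, (UP B X).indicator (fh h S) (r • f) := by
    calc ∫⁻ f in U, fh h S (r • f) ≤ ∫⁻ f in {f : Fr | r • f ∈ UP B X}, fh h S (r • f) := lintegral_mono_set hU
      _ = ∫⁻ f : Fr, ({f : Fr | r • f ∈ UP B X}).indicator (fun f => fh h S (r • f)) f := by
          rw [lintegral_indicator]
          exact (measurable_const_smul r) hm
      _ = ∫⁻ f : Fr, (UP B X).indicator (fh h S) (r • f) := by
          refine lintegral_congr fun f => ?_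
          by_cases hf : r • f ∈ UP B X
          · rw [indicator_of_mem hf, indicator_of_mem (show f ∈ {f : Fr | r • f ∈ UP B X} from hf)]
          · rw [indicator_of_notMem hf, indicator_of_notMem (show f ∉ {f : Fr | r • f ∈ UP B X} from hf)]
  refine h1.trans (le_of_eq ?_)
  have h2 : Measure.map (fun f : Fr => r • f) (volume : Measure Fr) = ENNReal.ofReal |(r ^ Module.finrank ℝ Fr)⁻¹| • (volume : Measure Fr) :=
    Measure.map_addHaar_smul volume hr.ne'
  have h3 : Module.finrank ℝ Fr = 4 := by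
    simp [Fr]
  rw [h3, abs_of_pos (by positivity)] at h2
  have hg : Measurable ((UP B X).indicator (fh h S)) := (fh_meas hc S).indicator hm
  calc ∫⁻ f : Fr, (UP B X).indicator (fh h S) (r • f) = ∫⁻ g, (UP B X).indicator (fh h S) g ∂(Measure.map (fun f : Fr => r • f) (volume : Measure Fr)) :=
        (lintegral_map hg (measurable_const_smul r)).symm
    _ = ENNReal.ofReal ((r ^ 4)⁻¹) * IH h B X S := by
        rw [h2, lintegral_smul_measure, smul_eq_mul, lintegral_indicator hm]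
        rfl

/-- a compact set of nondegenerate frames, scaled -/
theorem cpt_UP {U : Set Fr} (hU : IsCompact U) (hU0 : ∀ f ∈ U, 0 < fdet f) :
    ∃ B : ℝ, 1 ≤ B ∧ ∀ X : ℝ, 1 ≤ X → ∀ r ∈ Icc (X / 4) (8 * X), ∀ f ∈ U, r • f ∈ UP B X := by
  rcases U.eq_empty_or_nonempty with h | hne
  · exact ⟨1, le_rfl, fun X _ r _ f hf => absurd hf (by rw [h]; exact notMem_empty f)⟩
  obtain ⟨M, hM⟩ := hU.isBounded.exists_norm_le
  have hd : Continuous fun f : Fr => fdet f := by
    unfold fdet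
    fun_prop
  obtain ⟨f₀, hf₀, hmin⟩ := hU.exists_isMinOn hne hd.continuousOn
  have hδ := hU0 f₀ hf₀
  refine ⟨1 + 8 * |M| + 16 / fdet f₀, ?_, ?_⟩
  · have h1 : 0 ≤ |M| := abs_nonneg M
    have h2 : 0 ≤ 16 / fdet f₀ := by positivity
    linarith
  intro X hX r hr f hf
  have hX0 : 0 < X := by linarith
  have hr0 : 0 < r := by linarith [hr.1]
  have hn := hM f hf
  have n1 : ‖f.1‖ ≤ M := (norm_fst_le f).trans hn
  have n2 : ‖f.2‖ ≤ M := (norm_snd_le f).trans hn
  have n11 : |f.1.1| ≤ M := (norm_fst_le f.1).trans n1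
  have n12 : |f.1.2| ≤ M := (norm_snd_le f.1).trans n1
  have n21 : |f.2.1| ≤ M := (norm_fst_le f.2).trans n2
  have n22 : |f.2.2| ≤ M := (norm_snd_le f.2).trans n2
  have hb : ∀ x : ℝ, |x| ≤ M → |r * x| ≤ (1 + 8 * |M| + 16 / fdet f₀) * X := by
    intro x hx
    rw [abs_mul, abs_of_pos hr0]
    have h1 : |x| ≤ |M| := hx.trans (le_abs_self M)
    have h2 : r * |x| ≤ 8 * X * |M| := mul_le_mul hr.2 h1 (abs_nonneg x) (by linarith)
    have h3 : 0 ≤ (1 + 16 / fdet f₀) * X := by positivity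
    linarith
  have hdet : fdet f₀ ≤ fdet f := hmin hf
  refine ⟨hb _ n11, hb _ n12, hb _ n21, hb _ n22, ?_⟩
  have e : df (r • f) = r ^ 2 * fdet f := by
    unfold df fdet
    simp only [Prod.smul_fst, Prod.smul_snd, smul_eq_mul]
    ring
  have hf0 : 0 < fdet f := hU0 f hf
  rw [e]
  have h1 : X ^ 2 / 16 ≤ r ^ 2 := by
    have := hr.1
    nlinarith
  have h2 : X ^ 2 / 16 * fdet f₀ ≤ r ^ 2 * fdet f := mul_le_mul h1 hdet hδ.le (by positivity)
  calc X ^ 2 = 16 / fdet f₀ * (X ^ 2 / 16 * fdet f₀) := by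
        field_simp
    _ ≤ 16 / fdet f₀ * (r ^ 2 * fdet f) := mul_le_mul_of_nonneg_left h2 (by positivity)
    _ ≤ (1 + 8 * |M| + 16 / fdet f₀) * (r ^ 2 * fdet f) := by
        refine mul_le_mul_of_nonneg_right ?_ (by positivity)
        have := abs_nonneg M
        linarith

private theorem bochner65 {F : Fr → ℝ → ℝ} (hF : Continuous (fun q : Fr × ℝ => F q.1 q.2)) (h0 : ∀ f r, 0 ≤ F f r) (U : Set Fr)
    (a b Z : ℝ) (hZ : 0 ≤ Z) (h : ∫⁻ f in U, ∫⁻ r in Icc a b, ENNReal.ofReal (F f r) ≤ ENNReal.ofReal Z) :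
    ∫ f in U, ∫ r in Icc a b, F f r ≤ Z := by
  have hin : Continuous (fun f : Fr => ∫ r in Icc a b, F f r) :=
    continuous_parametric_integral_of_continuous hF isCompact_Icc
  have h2 : ∀ f : Fr, ENNReal.ofReal (∫ r in Icc a b, F f r) = ∫⁻ r in Icc a b, ENNReal.ofReal (F f r) := by
    intro f
    have hcr : Continuous (fun r : ℝ => F f r) := hF.comp (Continuous.prodMk continuous_const continuous_id)
    exact ofReal_integral_eq_lintegral_ofReal (hcr.continuousOn.integrableOn_compact isCompact_Icc)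
      (Eventually.of_forall fun r => h0 f r)
  rw [integral_eq_lintegral_of_nonneg_ae (Eventually.of_forall fun f =>
    setIntegral_nonneg measurableSet_Icc fun r _ => h0 f r) hin.aestronglyMeasurable]
  refine ENNReal.toReal_le_of_le_ofReal hZ ?_
  rw [lintegral_congr fun f => h2 f]
  exact h

theorem cpt_of_cone {P₀ : (ℝ × ℝ → ℝ) → Prop} {c₁ b : ℝ} (hP : ∀ h, P₀ h → Hom c₁ b h) (hc : ∀ ε B : ℝ, 0 < ε → 1 ≤ B → ∃ C : ℝ, 1 ≤ C ∧
    ∀ h : ℝ × ℝ → ℝ, P₀ h → ∀ (X H : ℝ) (S : Finset (ℤ × ℤ)), 1 ≤ X → 1 ≤ H → H ^ 3 ≤ X → Cone H 2 S → IH h B X S ≤ ENNReal.ofReal (C * X ^ (4 + ε) * (H ^ 20 + H ^ 34 * (X * H) ^ (-(7 / 4) : ℝ)))) :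
    MomF J20 F20q P₀ 0 (1 / 3) := by
  intro ε hε U hU hU0
  obtain ⟨B, hB, hUB⟩ := cpt_UP hU hU0
  obtain ⟨C, hC, hmom⟩ := hc ε B hε hB
  refine ⟨2 ^ 11 * (2 ^ 59 * C), ?_⟩
  intro h hh X hX n _ hn
  have hch : Continuous h := (hP h hh).cont
  have hX0 : 0 < X := by linarith
  obtain ⟨N, hN⟩ : ∃ N : ℕ, N = 2 ^ n := ⟨_, rfl⟩
  have hN1 : 1 ≤ N := by
    rw [hN]
    exact Nat.one_le_two_pow
  have hNr : ((2 : ℝ) ^ n) = N := by
    rw [hN]
    push_cast
    rfl
  rw [hNr] at hn ⊢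
  have hN1r : (1 : ℝ) ≤ N := by exact_mod_cast hN1
  have hN3 : (N : ℝ) ^ 3 ≤ X := by
    calc (N : ℝ) ^ 3 ≤ (X ^ (1 / 3 : ℝ)) ^ 3 := pow_le_pow_left₀ (Nat.cast_nonneg N) hn 3
      _ = X := by
          rw [← rpow_natCast, ← rpow_mul hX0.le]
          norm_num
  obtain ⟨W, hW⟩ : ∃ W : ℝ, W = (N : ℝ) ^ 20 + (N : ℝ) ^ 34 * (X * N) ^ (-(7 / 4) : ℝ) := ⟨_, rfl⟩
  have hW0 : 0 ≤ W := by
    rw [hW]
    positivity
  -- the square annulus
  have hsq : IH h B X (sqa N) ≤ ENNReal.ofReal (2 ^ 59) * ENNReal.ofReal (C * X ^ (4 + ε) * W) := by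
    refine IH_sqa hch hN1 fun S hS => ?_
    rw [hW]
    exact hmom h hh X N S hX hN1r hN3 hS
  rw [← ENNReal.ofReal_mul (by positivity)] at hsq
  -- the function of frame and radius
  obtain ⟨G, hG⟩ : ∃ G : Fr → ℝ → ℝ, G = fun f r => m20 (sqa N) (fun k => ee (r * h (fk f k))) := ⟨_, rfl⟩
  have hGc : Continuous fun q : Fr × ℝ => G q.1 q.2 := by
    rw [hG]
    refine m20_cont_coef (sqa N) (fun (q : Fr × ℝ) k => ee (q.2 * h (fk q.1 k))) fun k _ => ?_
    exact ee_cont.comp (continuous_snd.mul (hch.comp ((vf_cont k).comp continuous_fst)))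
  have hG0 : ∀ f r, 0 ≤ G f r := by
    intro f r
    rw [hG]
    exact m20_nonneg _ _
  have hGr : ∀ r : ℝ, 0 < r → ∀ f : Fr, ENNReal.ofReal (G f r) = fh h (sqa N) (r • f) := by
    intro r hr f
    rw [hG]
    unfold fh
    simp only [h_smul (hP h hh) hr]
  have hgoal : ∫ f in U, J20 f h X N = ∫ f in U, ∫ r in Icc (X / 4) (8 * X), G f r := by
    rw [hG]
    rfl
  have hZ0 : 0 ≤ 2 ^ 11 * (2 ^ 59 * C) * (X ^ ε * F20q X N) := by
    have : F20q X N = X * W := by
      rw [hW]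
      rfl
    rw [this]
    positivity
  have hcast : ((2 : ℕ) ^ n) = N := hN.symm
  rw [← hN] 
  rw [hgoal]
  refine bochner65 hGc hG0 U _ _ _ hZ0 ?_
  have hswap : ∫⁻ f in U, ∫⁻ r in Icc (X / 4) (8 * X), ENNReal.ofReal (G f r) = ∫⁻ r in Icc (X / 4) (8 * X), ∫⁻ f in U, ENNReal.ofReal (G f r) := by
    refine lintegral_lintegral_swap ?_
    exact (ENNReal.measurable_ofReal.comp hGc.measurable).aemeasurable
  rw [hswap]
  have hin : ∀ r ∈ Icc (X / 4) (8 * X), ∫⁻ f in U, ENNReal.ofReal (G f r) ≤ ENNReal.ofReal (((X / 4) ^ 4)⁻¹ * (2 ^ 59 * (C * X ^ (4 + ε) * W))) := by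
    intro r hr
    have hr0 : 0 < r := by linarith [hr.1]
    rw [lintegral_congr fun f => hGr r hr0 f]
    refine (scale hch hr0 (hUB X hX r hr) (sqa N)).trans ?_
    rw [ENNReal.ofReal_mul (by positivity)]
    refine mul_le_mul' (ENNReal.ofReal_le_ofReal ?_) hsq
    have h1 : (X / 4) ^ 4 ≤ r ^ 4 := pow_le_pow_left₀ (by positivity) hr.1 4
    exact inv_anti₀ (by positivity) h1
  calc ∫⁻ r in Icc (X / 4) (8 * X), ∫⁻ f in U, ENNReal.ofReal (G f r)
      ≤ ∫⁻ _r in Icc (X / 4) (8 * X), ENNReal.ofReal (((X / 4) ^ 4)⁻¹ * (2 ^ 59 * (C * X ^ (4 + ε) * W))) := setLIntegral_mono' measurableSet_Icc hin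
    _ = ENNReal.ofReal (((X / 4) ^ 4)⁻¹ * (2 ^ 59 * (C * X ^ (4 + ε) * W))) * ENNReal.ofReal (8 * X - X / 4) := by
        rw [setLIntegral_const, Real.volume_Icc]
    _ = ENNReal.ofReal (((X / 4) ^ 4)⁻¹ * (2 ^ 59 * (C * X ^ (4 + ε) * W)) * (8 * X - X / 4)) := by
        rw [← ENNReal.ofReal_mul (by positivity)]
    _ ≤ ENNReal.ofReal (2 ^ 11 * (2 ^ 59 * C) * (X ^ ε * F20q X N)) := by
        refine ENNReal.ofReal_le_ofReal ?_
        have e1 : X ^ (4 + ε) = X ^ 4 * X ^ ε := by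
          rw [rpow_add hX0, show (4 : ℝ) = ((4 : ℕ) : ℝ) by norm_num, rpow_natCast]
        have e2 : F20q X N = X * W := by
          rw [hW]
          rfl
        have e3 : ((X / 4) ^ 4)⁻¹ * (2 ^ 59 * (C * X ^ (4 + ε) * W)) * (8 * X - X / 4) = 1984 * (2 ^ 59 * C * (X ^ ε * (X * W))) := by
          rw [e1]
          field_simp
          ring
        rw [e3, e2]
        have h1 : 0 ≤ 2 ^ 59 * C * (X ^ ε * (X * W)) := by positivity
        nlinarith

end Pool.Agent.Helper3.AC
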